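import Mathlib

/-!
# Generalized bounded variation: basic lemmas
-/

namespace Pool.Agent.R783.BV

open Finset MeasureTheory Filter Topology

/-- sum of the first `n` weights -/
noncomputable def W (u : ℕ → ℝ) (n : ℕ) : ℝ := ∑ i ∈ range n, u i

section weights

variable {u : ℕ → ℝ}

theorem W_zero : W u 0 = 0 := by simp [W]

theorem W_succ (n : ℕ) : W u (n + 1) = W u n + u n := by simp [W, sum_range_succ]

theorem W_mono (h0 : ∀ i, 0 ≤ u i) : Monotone (W u) := by
  apply monotone_nat_of_le_succ
  intro n
  rw [W_succ]
  linarith [h0 n]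

theorem W_nonneg (h0 : ∀ i, 0 ≤ u i) (n : ℕ) : 0 ≤ W u n := sum_nonneg fun i _ => h0 i

theorem W_add (m n : ℕ) : W u (m + n) = W u m + ∑ i ∈ range n, u (m + i) := by
  simp [W, sum_range_add]

theorem W_add_le (hu : Antitone u) (m n : ℕ) : W u (m + n) ≤ W u m + W u n := by
  rw [W_add]
  have : ∑ i ∈ range n, u (m + i) ≤ W u n := sum_le_sum fun i _ => hu (by omega)
  linarith

theorem W_add_le' (hu : Antitone u) (m n : ℕ) : W u (m + n) ≤ W u m + n * u m := by
  rw [W_add]
  have : ∑ i ∈ range n, u (m + i) ≤ ∑ i ∈ range n, u m := sum_le_sum fun i _ => hu (by omega)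
  simp at this
  linarith

theorem W_two_mul (hu : Antitone u) (n : ℕ) : W u (2 * n) ≤ 2 * W u n := by
  have := W_add_le hu n n
  rw [← two_mul] at this
  linarith

/-- bathtub -/
theorem bathtub (h0 : ∀ i, 0 ≤ u i) (hu : Antitone u) (S : Finset ℕ) (v : ℕ → ℝ)
    (hv : ∀ i ∈ S, 0 ≤ v i ∧ v i ≤ 1) (M : ℕ) (hM : ∑ i ∈ S, v i ≤ M) :
    ∑ i ∈ S, v i * u i ≤ W u M := by
  have h1 : ∑ i ∈ S, v i * (u i - u M) ≤ ∑ i ∈ range M, (u i - u M) := by
    calc ∑ i ∈ S, v i * (u i - u M)
        ≤ ∑ i ∈ S, (if i < M then (u i - u M) else 0) := by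
          apply sum_le_sum
          intro i hi
          obtain ⟨h1, h2⟩ := hv i hi
          split_ifs with h
          · have : 0 ≤ u i - u M := by linarith [hu h.le]
            nlinarith
          · have : u i - u M ≤ 0 := by linarith [hu (not_lt.mp h)]
            nlinarith
      _ = ∑ i ∈ S.filter (fun i => i < M), (u i - u M) := by rw [sum_filter]
      _ ≤ ∑ i ∈ range M, (u i - u M) := by
          apply sum_le_sum_of_subset_of_nonneg
          · intro i hi
            simp at hi
            simp [hi.2]
          · intro i hi _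
            simp at hi
            linarith [hu hi.le]
  have h2 : ∑ i ∈ S, v i * (u i - u M) = ∑ i ∈ S, v i * u i - (∑ i ∈ S, v i) * u M := by
    simp [mul_sub, sum_sub_distrib, sum_mul]
  have h3 : ∑ i ∈ range M, (u i - u M) = W u M - M * u M := by
    simp [sum_sub_distrib, W]
  have h4 : (∑ i ∈ S, v i) * u M ≤ M * u M := mul_le_mul_of_nonneg_right hM (h0 M)
  linarith

theorem sum_le_W (h0 : ∀ i, 0 ≤ u i) (hu : Antitone u) (S : Finset ℕ) :
    ∑ i ∈ S, u i ≤ W u S.card := by
  have := bathtub h0 hu S (fun _ => 1) (by simp) S.card (by simp)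
  simpa using this

/-- the gain of splitting a family into two halves -/
noncomputable def gain (u : ℕ → ℝ) (n : ℕ) : ℝ := W u ((n + 1) / 2) + W u (n / 2) - W u n

theorem gain_nonneg (hu : Antitone u) (n : ℕ) : 0 ≤ gain u n := by
  unfold gain
  have h : (n + 1) / 2 + n / 2 = n := by omega
  have := W_add_le hu ((n + 1) / 2) (n / 2)
  rw [h] at this
  linarith

end weights

section layer

theorem int_ite {x R w : ℝ} (hx : 0 ≤ x) (hxR : x ≤ R) :
    ∫ c in (0:ℝ)..R, (if c < x then w else 0) = x * w := by
  have h1 : ∫ c in (0:ℝ)..x, (if c < x then w else 0) = x * w := by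
    have : ∫ c in (0:ℝ)..x, (if c < x then w else 0) = ∫ c in (0:ℝ)..x, w := by
      rw [intervalIntegral.integral_of_le hx, intervalIntegral.integral_of_le hx,
        integral_Ioc_eq_integral_Ioo, integral_Ioc_eq_integral_Ioo]
      apply setIntegral_congr_fun measurableSet_Ioo
      intro c hc
      simp [hc.2]
    rw [this]
    simp
  have h2 : ∫ c in x..R, (if c < x then w else 0) = 0 := by
    have : ∫ c in x..R, (if c < x then w else 0) = ∫ c in x..R, (0:ℝ) := by
      apply intervalIntegral.integral_congr
      intro c hc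
      rw [Set.uIcc_of_le hxR] at hc
      simp [not_lt.mpr hc.1]
    rw [this]
    simp
  have hm : ∀ y z : ℝ, IntervalIntegrable (fun c => if c < x then w else 0) volume y z := by
    intro y z
    have h : (fun c : ℝ => if c < x then w else 0) = (Set.Iio x).indicator (fun _ => w) := by
      ext c; simp [Set.indicator]
    rw [h, intervalIntegrable_iff]
    exact (integrableOn_const (by simp)).indicator measurableSet_Iio
  rw [← intervalIntegral.integral_add_adjacent_intervals (hm 0 x) (hm x R), h1, h2, add_zero]

theorem ii_ite (x w y z : ℝ) :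
    IntervalIntegrable (fun c => if c < x then w else 0) volume y z := by
  have h : (fun c : ℝ => if c < x then w else 0) = (Set.Iio x).indicator (fun _ => w) := by
    ext c; simp [Set.indicator]
  rw [h, intervalIntegrable_iff]
  exact (integrableOn_const (by simp)).indicator measurableSet_Iio

/-- layer cake -/
theorem layer (n : ℕ) (x w : ℕ → ℝ) (R : ℝ) (hx : ∀ i < n, 0 ≤ x i ∧ x i ≤ R) :
    ∑ i ∈ range n, x i * w i
      = ∫ c in (0:ℝ)..R, ∑ i ∈ (range n).filter (fun i => c < x i), w i := by
  have h1 : ∀ c : ℝ, ∑ i ∈ (range n).filter (fun i => c < x i), w i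
      = ∑ i ∈ range n, (if c < x i then w i else 0) := by
    intro c; rw [sum_filter]
  simp_rw [h1]
  rw [intervalIntegral.integral_finsetSum (fun i _ => ii_ite _ _ _ _)]
  apply sum_congr rfl
  intro i hi
  rw [int_ite (hx i (by simpa using hi)).1 (hx i (by simpa using hi)).2]

end layer

section cnt

variable {α : Type*} [DecidableEq α] (g : α → ℝ)

/-- number of members whose increment is larger than `c` -/
noncomputable def cnt (F : Finset α) (c : ℝ) : ℕ := (F.filter (fun I => c < g I)).card

omit [DecidableEq α] in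
theorem cnt_anti (F : Finset α) : Antitone (cnt g F) := by
  intro c d hcd
  apply card_le_card
  intro I hI
  simp only [mem_filter] at hI ⊢
  exact ⟨hI.1, lt_of_le_of_lt hcd hI.2⟩

omit [DecidableEq α] in
theorem cnt_le (F : Finset α) (c : ℝ) : cnt g F c ≤ F.card := card_filter_le _ _

omit [DecidableEq α] in
theorem cnt_mono {F F' : Finset α} (h : F ⊆ F') (c : ℝ) : cnt g F c ≤ cnt g F' c :=
  card_le_card (filter_subset_filter _ h)

theorem cnt_union {F F' : Finset α} (h : Disjoint F F') (c : ℝ) :
    cnt g (F ∪ F') c = cnt g F c + cnt g F' c := by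
  unfold cnt
  rw [filter_union, card_union_of_disjoint]
  exact disjoint_filter_filter h

omit [DecidableEq α] in
theorem ii (H : ℕ → ℝ) (F : Finset α) (x y : ℝ) :
    IntervalIntegrable (fun c => H (cnt g F c)) volume x y := by
  have hm : Measurable (cnt g F) := (cnt_anti g F).measurable
  have hm2 : Measurable (fun c => H (cnt g F c)) := (measurable_of_countable H).comp hm
  rw [intervalIntegrable_iff]
  have hb : ∀ c, ‖H (cnt g F c)‖ ≤ ∑ i ∈ range (F.card + 1), |H i| := by
    intro c
    rw [Real.norm_eq_abs]
    exact single_le_sum (f := fun i => |H i|) (fun i _ => abs_nonneg _)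
      (by simpa using Nat.lt_succ_of_le (cnt_le g F c))
  exact Measure.integrableOn_of_bounded (M := ∑ i ∈ range (F.card + 1), |H i|)
    (by simp [Set.uIoc]) hm2.aestronglyMeasurable (ae_of_all _ hb)

/-- a family can be split into two balanced halves -/
theorem split (F : Finset α) : ∃ J J' : Finset α, Disjoint J J' ∧ J ∪ J' = F ∧
    ∀ c, cnt g J' c ≤ cnt g J c ∧ cnt g J c ≤ cnt g J' c + 1 := by
  induction F using Finset.induction_on_min_value g with
  | empty => exact ⟨∅, ∅, by simp, by simp, by simp [cnt]⟩
  | insert a s has hmin ih =>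
    obtain ⟨J, J', hd, hu, hc⟩ := ih
    have haJ : a ∉ J := fun h => has (hu ▸ mem_union_left _ h)
    have haJ' : a ∉ J' := fun h => has (hu ▸ mem_union_right _ h)
    have hall : ∀ (K : Finset α), K ⊆ s → ∀ c, c < g a → cnt g K c = K.card := by
      intro K hK c hca
      unfold cnt
      rw [filter_true_of_mem]
      intro x hx
      exact lt_of_lt_of_le hca (hmin x (hK hx))
    have hJs : J ⊆ s := hu ▸ subset_union_left
    have hJs' : J' ⊆ s := hu ▸ subset_union_right
    have hins : ∀ (K : Finset α), a ∉ K → ∀ c, cnt g (insert a K) c =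
        cnt g K c + if c < g a then 1 else 0 := by
      intro K hK c
      unfold cnt
      rw [filter_insert]
      split_ifs with h
      · rw [card_insert_of_notMem (by simp [hK])]
      · simp
    have hc0 := hc (g a - 1)
    rw [hall J hJs _ (by linarith), hall J' hJs' _ (by linarith)] at hc0
    by_cases hcard : J.card = J'.card
    · refine ⟨insert a J, J', ?_, ?_, ?_⟩
      · rw [disjoint_insert_left]; exact ⟨haJ', hd⟩
      · rw [insert_union, hu]
      · intro c
        rw [hins J haJ]
        split_ifs with h
        · rw [hall J hJs c h, hall J' hJs' c h]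
          omega
        · exact hc c
    · refine ⟨J, insert a J', ?_, ?_, ?_⟩
      · rw [disjoint_insert_right]; exact ⟨haJ, hd⟩
      · rw [union_insert, hu]
      · intro c
        rw [hins J' haJ']
        split_ifs with h
        · rw [hall J hJs c h, hall J' hJs' c h]
          omega
        · exact hc c

/-- enumeration in decreasing order -/
theorem enum (F : Finset α) [Inhabited α] : ∃ I : ℕ → α, (∀ i < F.card, I i ∈ F) ∧
    (∀ i < F.card, ∀ j < F.card, I i = I j → i = j) ∧ (∀ x ∈ F, ∃ i < F.card, I i = x) ∧
    (∀ i < F.card, ∀ j < F.card, i ≤ j → g (I j) ≤ g (I i)) := by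
  induction F using Finset.induction_on_min_value g with
  | empty => exact ⟨fun _ => default, by simp⟩
  | insert a s has hmin ih =>
    obtain ⟨I, h1, h2, h3, h4⟩ := ih
    rw [card_insert_of_notMem has]
    have hup : ∀ i < s.card, Function.update I s.card a i = I i := by
      intro i hi
      rw [Function.update_of_ne (by omega)]
    have hup' : Function.update I s.card a s.card = a := by simp
    refine ⟨Function.update I s.card a, ?_, ?_, ?_, ?_⟩
    · intro i hi
      rcases Nat.lt_succ_iff_lt_or_eq.mp hi with h | h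
      · rw [hup i h]; exact mem_insert_of_mem (h1 i h)
      · subst h; rw [hup']; exact mem_insert_self _ _
    · intro i hi j hj hij
      rcases Nat.lt_succ_iff_lt_or_eq.mp hi with h | h <;>
        rcases Nat.lt_succ_iff_lt_or_eq.mp hj with h' | h'
      · rw [hup i h, hup j h'] at hij
        exact h2 i h j h' hij
      · subst h'
        rw [hup i h, hup'] at hij
        exact absurd (hij ▸ h1 i h) has
      · subst h
        rw [hup j h', hup'] at hij
        exact absurd (hij ▸ h1 j h') has
      · omega
    · intro x hx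
      rcases mem_insert.mp hx with h | h
      · exact ⟨s.card, by omega, by rw [hup', h]⟩
      · obtain ⟨i, hi, hi'⟩ := h3 x h
        exact ⟨i, by omega, by rw [hup i hi, hi']⟩
    · intro i hi j hj hij
      rcases Nat.lt_succ_iff_lt_or_eq.mp hj with h' | h'
      · rw [hup i (by omega), hup j h']
        exact h4 i (by omega) j h' hij
      · subst h'
        rw [hup']
        rcases Nat.lt_succ_iff_lt_or_eq.mp hi with h | h
        · rw [hup i h]; exact hmin _ (h1 i h)
        · subst h; rw [hup']

/-- the weighted sum along the decreasing enumeration -/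
theorem sum_enum {u : ℕ → ℝ} (hg : ∀ x, 0 ≤ g x) (F : Finset α) [Inhabited α] :
    ∃ I : ℕ → α, (∀ i < F.card, I i ∈ F) ∧
    (∀ i < F.card, ∀ j < F.card, I i = I j → i = j) ∧
    ∀ R, (∀ x ∈ F, g x ≤ R) →
      ∑ i ∈ range F.card, g (I i) * u i = ∫ c in (0:ℝ)..R, W u (cnt g F c) := by
  obtain ⟨I, h1, h2, h3, h4⟩ := enum g F
  refine ⟨I, h1, h2, ?_⟩
  intro R hR
  rw [layer F.card (fun i => g (I i)) u R (fun i hi => ⟨hg _, hR _ (h1 i hi)⟩)]
  apply intervalIntegral.integral_congr
  intro c _
  show ∑ i ∈ (range F.card).filter (fun i => c < g (I i)), u i = W u (cnt g F c)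
  have hcard : ((range F.card).filter (fun i => c < g (I i))).card = cnt g F c := by
    unfold cnt
    apply card_bij (fun i _ => I i)
    · intro i hi
      simp only [mem_filter, mem_range] at hi ⊢
      exact ⟨h1 i hi.1, hi.2⟩
    · intro i hi j hj hij
      simp only [mem_filter, mem_range] at hi hj
      exact h2 i hi.1 j hj.1 hij
    · intro x hx
      simp only [mem_filter] at hx
      obtain ⟨i, hi, rfl⟩ := h3 x hx.1
      exact ⟨i, by simp [hi, hx.2], rfl⟩
  have hinit : (range F.card).filter (fun i => c < g (I i)) = range (cnt g F c) := by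
    rw [← hcard]
    set S := (range F.card).filter (fun i => c < g (I i)) with hS
    have hdown : ∀ i j, i ≤ j → j ∈ S → i ∈ S := by
      intro i j hij hj
      simp only [hS, mem_filter, mem_range] at hj ⊢
      exact ⟨by omega, lt_of_lt_of_le hj.2 (h4 i (by omega) j hj.1 hij)⟩
    have hsub : ∀ i ∈ S, i < S.card := by
      intro i hi
      have : range (i + 1) ⊆ S := by
        intro j hj
        exact hdown j i (by simp at hj; omega) hi
      have := card_le_card this
      simp at this
      omega
    exact eq_of_subset_of_card_le (fun i hi => by simpa using hsub i hi) (by simp)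
  rw [hinit]
  rfl

omit [DecidableEq α] in
/-- the weighted sum along an arbitrary enumeration -/
theorem sum_le_int [DecidableEq α] {u : ℕ → ℝ} (h0 : ∀ i, 0 ≤ u i) (hu : Antitone u)
    (hg : ∀ x, 0 ≤ g x) (n : ℕ)
    (I : ℕ → α) (hI : ∀ i < n, ∀ j < n, I i = I j → i = j) (R : ℝ) (hR0 : 0 ≤ R)
    (hR : ∀ i < n, g (I i) ≤ R) :
    ∑ i ∈ range n, g (I i) * u i ≤ ∫ c in (0:ℝ)..R, W u (cnt g ((range n).image I) c) := by
  rw [layer n (fun i => g (I i)) u R (fun i hi => ⟨hg _, hR _ hi⟩)]
  have hcard : ∀ c, ((range n).filter (fun i => c < g (I i))).card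
      = cnt g ((range n).image I) c := by
    intro c
    unfold cnt
    apply card_bij (fun i _ => I i)
    · intro i hi
      simp only [mem_filter, mem_range] at hi
      simp only [mem_filter, mem_image, mem_range]
      exact ⟨⟨i, hi.1, rfl⟩, hi.2⟩
    · intro i hi j hj hij
      simp only [mem_filter, mem_range] at hi hj
      exact hI i hi.1 j hj.1 hij
    · intro x hx
      simp only [mem_filter, mem_image, mem_range] at hx
      obtain ⟨⟨i, hi, rfl⟩, hx2⟩ := hx
      exact ⟨i, by simp [hi, hx2], rfl⟩
  apply intervalIntegral.integral_mono_on hR0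
  · have h1 : ∀ c : ℝ, ∑ i ∈ (range n).filter (fun i => c < g (I i)), u i
      = ∑ i ∈ range n, (if c < g (I i) then u i else 0) := by
      intro c; rw [sum_filter]
    simp_rw [h1]
    have h2 := IntervalIntegrable.sum (μ := volume) (a := 0) (b := R) (range n)
      (f := fun i c => if c < g (I i) then u i else 0) (fun i _ => ii_ite _ _ _ _)
    have e : (fun c : ℝ => ∑ i ∈ range n, (if c < g (I i) then u i else 0))
        = ∑ i ∈ range n, fun c : ℝ => if c < g (I i) then u i else 0 := by
      funext c
      simp
    rw [e]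
    exact h2
  · exact ii g (W u) _ _ _
  · intro c _
    rw [← hcard]
    exact sum_le_W h0 hu _

end cnt

end Pool.Agent.R783.BV
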