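import Pool.Agent.R783.BV.Basic

/-!
# Generalized bounded variation: the splitting argument
-/

namespace Pool.Agent.R783.BV

open Finset MeasureTheory Filter Topology

/-- non-overlapping intervals -/
def NO (I J : ℝ × ℝ) : Prop := I.2 ≤ J.1 ∨ J.2 ≤ I.1

/-- finite families of nonoverlapping intervals of `[a,b]` -/
def FF (a b : ℝ) (F : Finset (ℝ × ℝ)) : Prop :=
  (∀ I ∈ F, a ≤ I.1 ∧ I.1 < I.2 ∧ I.2 ≤ b) ∧ ∀ I ∈ F, ∀ J ∈ F, I ≠ J → NO I J

theorem NO.symm {I J : ℝ × ℝ} (h : NO I J) : NO J I := Or.symm h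

open Classical in
/-- add to `X` the members of `F` that do not overlap `X` -/
noncomputable def ext (X F : Finset (ℝ × ℝ)) : Finset (ℝ × ℝ) :=
  X ∪ F.filter (fun I => ∀ L ∈ X, NO I L)

theorem ext_FF {a b : ℝ} {X F : Finset (ℝ × ℝ)} (hX : FF a b X) (hF : FF a b F) :
    FF a b (ext X F) := by
  classical
  constructor
  · intro I hI
    unfold ext at hI
    rcases mem_union.mp hI with h | h
    · exact hX.1 I h
    · exact hF.1 I (mem_filter.mp h).1
  · intro I hI J hJ hne
    unfold ext at hI hJ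
    rcases mem_union.mp hI with h | h <;> rcases mem_union.mp hJ with h' | h'
    · exact hX.2 I h J h' hne
    · exact ((mem_filter.mp h').2 I h).symm
    · exact (mem_filter.mp h).2 J h'
    · exact hF.2 I (mem_filter.mp h).1 J (mem_filter.mp h').1 hne

theorem FF_sub {a b : ℝ} {X F : Finset (ℝ × ℝ)} (h : X ⊆ F) (hF : FF a b F) : FF a b X :=
  ⟨fun I hI => hF.1 I (h hI), fun I hI J hJ => hF.2 I (h hI) J (h hJ)⟩

theorem cnt_ext {a b : ℝ} (g : ℝ × ℝ → ℝ) {F1 F2 J J' : Finset (ℝ × ℝ)} (h1 : FF a b F1)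
    (h2 : FF a b F2) (hd : Disjoint J J') (hu : J ∪ J' = F1) (c : ℝ) :
    cnt g F2 c ≤ cnt g (ext J F2) c + cnt g (ext J' F2) c + F1.card := by
  classical
  set B := F2.filter (fun I => (∃ L ∈ J, ¬ NO I L) ∧ (∃ L ∈ J', ¬ NO I L)) with hB
  have hBc : B.card ≤ F1.card := by
    apply card_le_card_of_forall_subsingleton (fun I L => I.1 < L.2 ∧ L.2 < I.2)
    · intro I hI
      obtain ⟨_, ⟨L, hL, hLn⟩, ⟨L', hL', hLn'⟩⟩ := mem_filter.mp hI
      have hLF : L ∈ F1 := hu ▸ mem_union_left _ hL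
      have hLF' : L' ∈ F1 := hu ▸ mem_union_right _ hL'
      have hne : L ≠ L' := fun h => (Finset.disjoint_left.mp hd hL) (h ▸ hL')
      unfold NO at hLn hLn'
      push Not at hLn hLn'
      rcases h1.2 L hLF L' hLF' hne with h | h
      · exact ⟨L, hLF, hLn.2, lt_of_le_of_lt h hLn'.1⟩
      · exact ⟨L', hLF', hLn'.2, lt_of_le_of_lt h hLn.1⟩
    · intro L hL I hI I' hI'
      by_contra hne
      have hIF : I ∈ F2 := (mem_filter.mp hI.1).1
      have hIF' : I' ∈ F2 := (mem_filter.mp hI'.1).1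
      rcases h2.2 I hIF I' hIF' hne with h | h
      · linarith [hI.2.1, hI.2.2, hI'.2.1, hI'.2.2]
      · linarith [hI.2.1, hI.2.2, hI'.2.1, hI'.2.2]
  have hsub : F2.filter (fun I => c < g I) ⊆ (ext J F2).filter (fun I => c < g I) ∪
      (ext J' F2).filter (fun I => c < g I) ∪ B := by
    intro I hI
    obtain ⟨hI1, hI2⟩ := mem_filter.mp hI
    by_cases hJ : ∀ L ∈ J, NO I L
    · refine mem_union_left _ (mem_union_left _ (mem_filter.mpr ⟨?_, hI2⟩))
      exact mem_union_right _ (mem_filter.mpr ⟨hI1, hJ⟩)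
    · by_cases hJ' : ∀ L ∈ J', NO I L
      · refine mem_union_left _ (mem_union_right _ (mem_filter.mpr ⟨?_, hI2⟩))
        exact mem_union_right _ (mem_filter.mpr ⟨hI1, hJ'⟩)
      · push Not at hJ hJ'
        exact mem_union_right _ (mem_filter.mpr ⟨hI1, hJ, hJ'⟩)
  calc cnt g F2 c ≤ ((ext J F2).filter (fun I => c < g I) ∪
      (ext J' F2).filter (fun I => c < g I) ∪ B).card := card_le_card hsub
    _ ≤ ((ext J F2).filter (fun I => c < g I) ∪
      (ext J' F2).filter (fun I => c < g I)).card + B.card := card_union_le _ _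
    _ ≤ cnt g (ext J F2) c + cnt g (ext J' F2) c + F1.card :=
      add_le_add (card_union_le _ _) hBc

/-- the main splitting argument -/
theorem core {a b : ℝ} {g : ℝ × ℝ → ℝ} {u w : ℕ → ℝ} (hu0 : ∀ i, 0 ≤ u i) (hu : Antitone u)
    (hw0 : ∀ i, 0 ≤ w i) (hw : Antitone w) {V : ℝ} (hV0 : 0 ≤ V)
    (hV : ∀ F, FF a b F → ∀ c ≥ 0, ∫ x in (0:ℝ)..c, W u (cnt g F x) ≤ V)
    {C : ℝ} (hC : 0 ≤ C) (hLG : ∀ n, W w n ≤ C * W u n)
    (h2 : ∀ δ > 0, ∃ η > 0, ∃ i0 : ℕ, ∀ i ≥ i0, δ * W u i ≤ W w i → η * W u i ≤ gain u i) :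
    ∀ ε > 0, ∃ c > 0, ∀ F, FF a b F → ∫ x in (0:ℝ)..c, W w (cnt g F x) ≤ ε := by
  intro ε hε
  by_contra hcon
  push Not at hcon
  set s := (V + 1) / ε with hs
  have hspos : 0 < s := by positivity
  set H : ℕ → ℝ := fun n => W u n + s * W w n with hH
  have hH0 : ∀ n, 0 ≤ H n := fun n => by
    have := W_nonneg hu0 n
    have := W_nonneg hw0 n
    simp only [hH]; positivity
  have hHmono : Monotone H := by
    intro m n hmn
    have h1 := W_mono hu0 hmn
    have h2 := mul_le_mul_of_nonneg_left (W_mono hw0 hmn) hspos.le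
    simp only [hH]; linarith
  have hHadd : ∀ m n, H (m + n) ≤ H m + H n := by
    intro m n
    have h1 := W_add_le hu m n
    have h2 := mul_le_mul_of_nonneg_left (W_add_le hw m n) hspos.le
    simp only [hH]; linarith
  have hiH : ∀ F x y, ∫ c in x..y, H (cnt g F c) =
      (∫ c in x..y, W u (cnt g F c)) + s * ∫ c in x..y, W w (cnt g F c) := by
    intro F x y
    rw [← intervalIntegral.integral_const_mul, ← intervalIntegral.integral_add
      (ii g (W u) F x y) ((ii g (W w) F x y).const_mul s)]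
  have hnn : ∀ (K : ℕ → ℝ), (∀ n, 0 ≤ K n) → ∀ F x y, x ≤ y → 0 ≤ ∫ c in x..y, K (cnt g F c) := by
    intro K hK F x y hxy
    exact intervalIntegral.integral_nonneg hxy (fun c _ => hK _)
  have hsplit : ∀ (K : ℕ → ℝ) F x y z, (∫ c in x..y, K (cnt g F c)) + ∫ c in y..z, K (cnt g F c)
      = ∫ c in x..z, K (cnt g F c) := fun K F x y z =>
    intervalIntegral.integral_add_adjacent_intervals (ii g K F x y) (ii g K F y z)
  have hcard : ∀ F c, 0 ≤ c → ∫ x in (0:ℝ)..c, H (cnt g F x) ≤ c * H F.card := by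
    intro F c hc
    have h1 : ∫ x in (0:ℝ)..c, H (cnt g F x) ≤ ∫ x in (0:ℝ)..c, H F.card :=
      intervalIntegral.integral_mono_on hc (ii g H F 0 c) (by simp)
        (fun x _ => hHmono (cnt_le g F x))
    simpa using h1
  -- the set A
  set A : Set ℝ := {x | ∀ c > 0, ∃ F, FF a b F ∧ x ≤ ∫ c in (0:ℝ)..c, H (cnt g F c)} with hA
  have hmem : V + 1 ∈ A := by
    intro c hc
    obtain ⟨F, hF, hFε⟩ := hcon c hc
    refine ⟨F, hF, ?_⟩
    rw [hiH]
    have h1 := hnn (W u) (W_nonneg hu0) F 0 c hc.le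
    have h2 : s * ε = V + 1 := by rw [hs]; field_simp
    have h3 := mul_lt_mul_of_pos_left hFε hspos
    linarith
  have hbdd : ∀ x ∈ A, x ≤ (1 + s * C) * V := by
    intro x hx
    obtain ⟨F, hF, hx⟩ := hx 1 one_pos
    refine hx.trans ?_
    rw [hiH]
    have h1 := hV F hF 1 zero_le_one
    have h2 : ∫ c in (0:ℝ)..1, W w (cnt g F c) ≤ C * V := by
      have h3 : ∫ c in (0:ℝ)..1, W w (cnt g F c) ≤ ∫ c in (0:ℝ)..1, C * W u (cnt g F c) :=
        intervalIntegral.integral_mono_on zero_le_one (ii g _ F 0 1)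
          ((ii g _ F 0 1).const_mul C) (fun c _ => hLG _)
      rw [intervalIntegral.integral_const_mul] at h3
      exact h3.trans (mul_le_mul_of_nonneg_left h1 hC)
    have h4 := mul_le_mul_of_nonneg_left h2 hspos.le
    nlinarith
  set T := sSup A with hT
  have hbA : BddAbove A := ⟨_, hbdd⟩
  have hTge : V + 1 ≤ T := le_csSup hbA hmem
  -- parameters
  obtain ⟨η, hη, i0, hi0⟩ := h2 (1 / (8 * s * (V + 1))) (by positivity)
  set δ := 1 / (8 * s * (V + 1)) with hδ
  set e := min (1 / 16) (η / (48 * s * (C + 1))) with he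
  have hepos : 0 < e := lt_min (by norm_num) (by positivity)
  have he1 : e ≤ 1 / 16 := min_le_left _ _
  have he2 : e ≤ η / (48 * s * (C + 1)) := min_le_right _ _
  have hnA : T + e ∉ A := fun h => by
    have := le_csSup hbA h
    rw [← hT] at this
    linarith
  have hexc : ∃ c0 > 0, ∀ F, FF a b F → ∫ c in (0:ℝ)..c0, H (cnt g F c) < T + e := by
    by_contra hno
    push Not at hno
    exact hnA (fun c hc => hno c hc)
  obtain ⟨c0, hc0, hup⟩ := hexc
  have hlow : ∀ c > 0, ∃ F, FF a b F ∧ T - e ≤ ∫ c in (0:ℝ)..c, H (cnt g F c) := by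
    obtain ⟨x, hx, hxT⟩ := exists_lt_of_lt_csSup ⟨_, hmem⟩ (show T - e < sSup A by linarith)
    intro c hc
    obtain ⟨F, hF, hFx⟩ := hx c hc
    exact ⟨F, hF, by linarith⟩
  set Li := W w i0 with hLi
  have hLi0 : 0 ≤ Li := W_nonneg hw0 _
  set c1 := min c0 (1 / (8 * s * (Li + 1))) with hc1
  have hc1pos : 0 < c1 := lt_min hc0 (by positivity)
  have hc1a : c1 ≤ c0 := min_le_left _ _
  have hc1b : c1 ≤ 1 / (8 * s * (Li + 1)) := min_le_right _ _
  obtain ⟨F1, hF1, hF1T⟩ := hlow c1 hc1pos
  set c2 := min c1 (e / (H F1.card + 1)) with hc2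
  have hHF : 0 ≤ H F1.card := hH0 _
  have hc2pos : 0 < c2 := lt_min hc1pos (by positivity)
  have hc2a : c2 ≤ c1 := min_le_left _ _
  have hc2b : c2 * H F1.card ≤ e := by
    have h1 : c2 ≤ e / (H F1.card + 1) := min_le_right _ _
    calc c2 * H F1.card ≤ e / (H F1.card + 1) * H F1.card := mul_le_mul_of_nonneg_right h1 hHF
      _ = e * (H F1.card / (H F1.card + 1)) := by ring
      _ ≤ e * 1 := by
          apply mul_le_mul_of_nonneg_left _ hepos.le
          rw [div_le_one (by positivity)]; linarith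
      _ = e := mul_one e
  obtain ⟨F2, hF2, hF2T⟩ := hlow c2 hc2pos
  obtain ⟨J, J', hd, hun, hbal⟩ := split g F1
  have hJF : J ⊆ F1 := hun ▸ subset_union_left
  have hJF' : J' ⊆ F1 := hun ▸ subset_union_right
  have hK := ext_FF (FF_sub hJF hF1) hF2
  have hK' := ext_FF (FF_sub hJF' hF1) hF2
  have hupc1 : ∀ F, FF a b F → ∫ c in (0:ℝ)..c1, H (cnt g F c) < T + e := by
    intro F hF
    have h1 := hsplit H F 0 c1 c0
    have h2 := hnn H hH0 F c1 c0 hc1a
    linarith [hup F hF]
  have hK1 := hupc1 _ hK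
  have hK1' := hupc1 _ hK'
  have hs1 := hsplit H (ext J F2) 0 c2 c1
  have hs1' := hsplit H (ext J' F2) 0 c2 c1
  have hJK : J ⊆ ext J F2 := subset_union_left
  have hJK' : J' ⊆ ext J' F2 := subset_union_left
  -- lower part
  have hlo : T - 2 * e ≤ (∫ c in (0:ℝ)..c2, H (cnt g (ext J F2) c)) +
      ∫ c in (0:ℝ)..c2, H (cnt g (ext J' F2) c) := by
    rw [← intervalIntegral.integral_add (ii g H _ 0 c2) (ii g H _ 0 c2)]
    have h1 : ∫ c in (0:ℝ)..c2, (H (cnt g F2 c) - H F1.card) ≤
        ∫ c in (0:ℝ)..c2, (H (cnt g (ext J F2) c) + H (cnt g (ext J' F2) c)) := by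
      apply intervalIntegral.integral_mono_on hc2pos.le
      · exact (ii g H F2 0 c2).sub (by simp)
      · exact (ii g H _ 0 c2).add (ii g H _ 0 c2)
      · intro c _
        have h3 := hHmono (cnt_ext g hF1 hF2 hd hun c)
        have h4 := hHadd (cnt g (ext J F2) c + cnt g (ext J' F2) c) F1.card
        have h5 := hHadd (cnt g (ext J F2) c) (cnt g (ext J' F2) c)
        linarith
    rw [intervalIntegral.integral_sub (ii g H F2 0 c2) (by simp)] at h1
    simp only [intervalIntegral.integral_const, smul_eq_mul, sub_zero] at h1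
    linarith
  -- upper part
  have hhi : (∫ c in c2..c1, H (cnt g F1 c)) + ∫ c in c2..c1, gain u (cnt g F1 c) ≤
      (∫ c in c2..c1, H (cnt g (ext J F2) c)) + ∫ c in c2..c1, H (cnt g (ext J' F2) c) := by
    rw [← intervalIntegral.integral_add (ii g H _ c2 c1) (ii g H _ c2 c1),
      ← intervalIntegral.integral_add (ii g H _ c2 c1) (ii g (gain u) _ c2 c1)]
    apply intervalIntegral.integral_mono_on hc2a
    · exact (ii g H _ c2 c1).add (ii g _ _ c2 c1)
    · exact (ii g H _ c2 c1).add (ii g H _ c2 c1)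
    · intro c _
      have h3 := hHmono (cnt_mono g hJK c)
      have h4 := hHmono (cnt_mono g hJK' c)
      have h5 : cnt g F1 c = cnt g J c + cnt g J' c := by rw [← hun, cnt_union g hd]
      obtain ⟨h6, h7⟩ := hbal c
      have h8 : cnt g J c = (cnt g F1 c + 1) / 2 := by omega
      have h9 : cnt g J' c = cnt g F1 c / 2 := by omega
      have h10 := gain_nonneg hw (cnt g F1 c)
      have h11 : H (cnt g F1 c) + gain u (cnt g F1 c) ≤ H (cnt g J c) + H (cnt g J' c) := by
        rw [h8, h9]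
        simp only [hH]
        have h12 : s * W w (cnt g F1 c) ≤ s * W w ((cnt g F1 c + 1) / 2)
            + s * W w (cnt g F1 c / 2) := by
          unfold gain at h10
          nlinarith
        unfold gain
        linarith
      linarith
  have hF1s := hsplit H F1 0 c2 c1
  have hF1c := hcard F1 c2 hc2pos.le
  have hF1lo : T - 2 * e ≤ ∫ c in c2..c1, H (cnt g F1 c) := by linarith
  have hgain : ∫ c in c2..c1, gain u (cnt g F1 c) ≤ 6 * e := by linarith
  -- bound for W w
  have hww : ∫ c in c2..c1, W w (cnt g F1 c) ≤ δ * V + C / η * (6 * e) + c1 * Li := by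
    have h1 : ∫ c in c2..c1, W w (cnt g F1 c) ≤
        ∫ c in c2..c1, (δ * W u (cnt g F1 c) + C / η * gain u (cnt g F1 c) + Li) := by
      apply intervalIntegral.integral_mono_on hc2a (ii g _ _ _ _)
      · exact (((ii g _ _ _ _).const_mul δ).add ((ii g _ _ _ _).const_mul (C / η))).add (by simp)
      · intro c _
        set N := cnt g F1 c
        have hg0 := gain_nonneg hu N
        have hu00 := W_nonneg hu0 N
        have hδ0 : 0 ≤ δ := by positivity
        have hCη : 0 ≤ C / η := by positivity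
        rcases lt_or_ge N i0 with h | h
        · have h3 := W_mono hw0 h.le
          have : 0 ≤ δ * W u N := by positivity
          have : 0 ≤ C / η * gain u N := by positivity
          linarith
        · by_cases h4 : W w N ≤ δ * W u N
          · have : 0 ≤ C / η * gain u N := by positivity
            linarith
          · push Not at h4
            have h5 := hi0 N h h4.le
            have h6 : C * W u N ≤ C / η * gain u N := by
              calc C * W u N = C / η * (η * W u N) := by field_simp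
                _ ≤ C / η * gain u N := mul_le_mul_of_nonneg_left h5 hCη
            have : 0 ≤ δ * W u N := by positivity
            linarith [hLG N]
    have h2 : ∫ c in c2..c1, (δ * W u (cnt g F1 c) + C / η * gain u (cnt g F1 c) + Li) =
        δ * (∫ c in c2..c1, W u (cnt g F1 c)) + C / η * (∫ c in c2..c1, gain u (cnt g F1 c))
        + (c1 - c2) * Li := by
      rw [intervalIntegral.integral_add (((ii g _ _ _ _).const_mul δ).add
        ((ii g _ _ _ _).const_mul (C / η))) (by simp), intervalIntegral.integral_add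
        ((ii g _ _ _ _).const_mul δ) ((ii g _ _ _ _).const_mul (C / η)),
        intervalIntegral.integral_const_mul, intervalIntegral.integral_const_mul]
      simp
    have h3 : ∫ c in c2..c1, W u (cnt g F1 c) ≤ V := by
      have h4 := hsplit (W u) F1 0 c2 c1
      have h5 := hnn (W u) (W_nonneg hu0) F1 0 c2 hc2pos.le
      have h6 := hV F1 hF1 c1 hc1pos.le
      linarith
    have hδ0 : 0 ≤ δ := by positivity
    have hCη : 0 ≤ C / η := by positivity
    have h7 := mul_le_mul_of_nonneg_left h3 hδ0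
    have h8 := mul_le_mul_of_nonneg_left hgain hCη
    have h9 : (c1 - c2) * Li ≤ c1 * Li := mul_le_mul_of_nonneg_right (by linarith) hLi0
    linarith
  have hfin : ∫ c in c2..c1, H (cnt g F1 c) ≤ V + s * (δ * V + C / η * (6 * e) + c1 * Li) := by
    rw [hiH]
    have h3 : ∫ c in c2..c1, W u (cnt g F1 c) ≤ V := by
      have h4 := hsplit (W u) F1 0 c2 c1
      have h5 := hnn (W u) (W_nonneg hu0) F1 0 c2 hc2pos.le
      have h6 := hV F1 hF1 c1 hc1pos.le
      linarith
    have h4 := mul_le_mul_of_nonneg_left hww hspos.le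
    linarith
  have hA1 : s * (δ * V) ≤ 1 / 8 := by
    rw [hδ]
    have : s * (1 / (8 * s * (V + 1)) * V) = 1 / 8 * (V / (V + 1)) := by
      field_simp
    rw [this]
    have : V / (V + 1) ≤ 1 := by rw [div_le_one (by positivity)]; linarith
    linarith
  have hA2 : s * (C / η * (6 * e)) ≤ 1 / 8 := by
    have h1 : s * (C / η * (6 * e)) ≤ s * (C / η * (6 * (η / (48 * s * (C + 1))))) := by
      apply mul_le_mul_of_nonneg_left _ hspos.le
      apply mul_le_mul_of_nonneg_left _ (by positivity)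
      linarith
    have h2 : s * (C / η * (6 * (η / (48 * s * (C + 1))))) = 1 / 8 * (C / (C + 1)) := by
      field_simp; ring
    rw [h2] at h1
    have : C / (C + 1) ≤ 1 := by rw [div_le_one (by positivity)]; linarith
    linarith
  have hA3 : s * (c1 * Li) ≤ 1 / 8 := by
    have h1 : s * (c1 * Li) ≤ s * (1 / (8 * s * (Li + 1)) * Li) := by
      apply mul_le_mul_of_nonneg_left _ hspos.le
      exact mul_le_mul_of_nonneg_right hc1b hLi0
    have h2 : s * (1 / (8 * s * (Li + 1)) * Li) = 1 / 8 * (Li / (Li + 1)) := by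
      field_simp
    rw [h2] at h1
    have : Li / (Li + 1) ≤ 1 := by rw [div_le_one (by positivity)]; linarith
    linarith
  linarith

end Pool.Agent.R783.BV
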