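import Pool.Agent.R783.BV.Nec

/-!
# Generalized bounded variation: the characterization
-/

namespace Pool.Agent.R783.BV

open Finset MeasureTheory Filter Topology
open scoped ENNReal

/-- concavity estimate -/
theorem conc {u : ℕ → ℝ} (hu0 : ∀ i, 0 ≤ u i) (hu : Antitone u) {n : ℕ} (hn : 1 ≤ n) {δ : ℝ}
    (hδ : 0 ≤ δ) (h : (2 - δ) * W u n ≤ W u (2 * n)) (t : ℕ) (ht : t ≤ n) :
    W u t ≤ W u n * (t / n + δ) := by
  have hn' : (0 : ℝ) < n := by exact_mod_cast hn
  obtain ⟨s, rfl⟩ : ∃ s, n = t + s := ⟨n - t, by omega⟩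
  set N := t + s with hN
  have h1 : (s : ℝ) * u N ≤ W u N - W u t := by
    rw [hN, W_add, add_sub_cancel_left]
    have : ∑ i ∈ range s, u (t + s) ≤ ∑ i ∈ range s, u (t + i) := by
      apply sum_le_sum
      intro i hi
      simp only [mem_range] at hi
      exact hu (by omega)
    simpa using this
  have h2 : W u (2 * N) ≤ W u N + N * u N := by
    rw [two_mul]; exact W_add_le' hu N N
  have h3 : (1 - δ) * W u N ≤ N * u N := by linarith
  have h4 : (s : ℝ) * ((1 - δ) * W u N) ≤ N * (W u N - W u t) := by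
    calc (s : ℝ) * ((1 - δ) * W u N) ≤ s * (N * u N) :=
          mul_le_mul_of_nonneg_left h3 (Nat.cast_nonneg _)
      _ = N * (s * u N) := by ring
      _ ≤ N * (W u N - W u t) := mul_le_mul_of_nonneg_left h1 hn'.le
  have h5 : (s : ℝ) = N - t := by rw [hN]; push_cast; ring
  have h6 := W_nonneg hu0 N
  have h7 : (0:ℝ) ≤ t := Nat.cast_nonneg t
  have h8 : W u t * N ≤ W u N * (t + δ * N) := by
    rw [h5] at h4
    nlinarith [mul_nonneg (mul_nonneg hδ h6) h7]
  have h9 : W u N * (t / N + δ) = W u N * (t + δ * N) / N := by field_simp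
  rw [h9, le_div_iff₀ hn']
  exact h8

theorem avg_small {u : ℕ → ℝ} (h : Tendsto u atTop (𝓝 0)) {ε : ℝ} (hε : 0 < ε) :
    ∀ᶠ n : ℕ in atTop, W u n ≤ ε * n := by
  filter_upwards [(W_avg h).eventually (gt_mem_nhds hε), eventually_gt_atTop 0] with n hn hn0
  have hn' : (0:ℝ) < n := by exact_mod_cast hn0
  rw [div_lt_iff₀ hn'] at hn
  exact hn.le

/-- **The characterization.** -/
theorem main {a b : ℝ} (hab : a < b) {gam lam : ℕ → ℝ} (hg : LSeq gam) (hl : LSeq lam) :
    (∀ f : ℝ → ℝ, Var a b gam f < ⊤ → Var a b lam f < ⊤ ∧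
      Tendsto (fun m => Var a b (fun i => lam (m + i)) f) atTop (𝓝 0)) ↔
    (∃ C : ℝ, ∀ n, W (rc lam) n ≤ C * W (rc gam) n) ∧
    (∀ ε > 0, ∃ δ > 0, ∃ N : ℕ, ∀ n ≥ N, (2 - δ) * W (rc gam) n ≤ W (rc gam) (2 * n) →
      W (rc lam) n ≤ ε * W (rc gam) n) := by
  constructor
  swap
  · rintro ⟨h1, h2⟩ f hf
    exact suff hab hg hl h1 h2 hf
  intro h
  by_contra hno
  set u := rc gam with hu
  set w := rc lam with hw
  have hu0 : ∀ i, 0 < u i := rc_pos hg
  have hw0 : ∀ i, 0 < w i := rc_pos hl
  have hua : Antitone u := rc_anti hg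
  have hwa : Antitone w := rc_anti hl
  have hu0' : ∀ i, 0 ≤ u i := fun i => (hu0 i).le
  have hw0' : ∀ i, 0 ≤ w i := fun i => (hw0 i).le
  have hcontra : ∀ (f : ℝ → ℝ) (c : ℝ), 0 < c → Var a b gam f < ⊤ →
      (∀ m, ENNReal.ofReal c ≤ Var a b (fun i => lam (m + i)) f) → False := by
    intro f c hc hf hm
    have h1 := (h f hf).2
    have h2 := ge_of_tendsto' h1 hm
    have h3 : ENNReal.ofReal c = 0 := le_antisymm h2 (by simp)
    rw [ENNReal.ofReal_eq_zero] at h3
    linarith
  rcases anti_alt hu0' hua with hu00 | ⟨l, hl0, hlu⟩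
  · -- u tends to zero
    have hP : ∃ c > 0, ∀ (k : ℕ) (R : ℝ), 0 < R → ∃ (n : ℕ) (A : ℝ), 0 < A ∧ 1 ≤ n ∧
        A * R ≤ 1 ∧ R ≤ A * n ∧ (∀ t ≤ n, A * W u t ≤ t / n + (1 / 2) ^ k) ∧ c ≤ A * W w n := by
      by_cases hC : ∃ C : ℝ, ∀ n, W w n ≤ C * W u n
      · have h2 : ¬ (∀ ε > 0, ∃ δ > 0, ∃ N : ℕ, ∀ n ≥ N, (2 - δ) * W u n ≤ W u (2 * n) →
            W w n ≤ ε * W u n) := fun h2 => hno ⟨hC, h2⟩
        push Not at h2
        obtain ⟨ε, hε, h2⟩ := h2
        refine ⟨ε, hε, ?_⟩
        intro k R hR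
        obtain ⟨N, hN⟩ := eventually_atTop.mp (((rc_tendsto hg).eventually_ge_atTop R).and
          ((avg_small hu00 (show (0:ℝ) < 1 / R by positivity)).and (eventually_ge_atTop 1)))
        obtain ⟨n, hn, hn2, hn3⟩ := h2 ((1 / 2) ^ k) (by positivity) N
        obtain ⟨ha, hb, hc⟩ := hN n hn
        have hWpos : 0 < W u n := lt_of_lt_of_le hR ha
        refine ⟨n, 1 / W u n, by positivity, hc, ?_, ?_, ?_, ?_⟩
        · rw [one_div_mul_eq_div, div_le_one hWpos]
          exact ha
        · rw [one_div_mul_eq_div, le_div_iff₀ hWpos]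
          have := mul_le_mul_of_nonneg_left hb hR.le
          calc R * W u n ≤ R * (1 / R * n) := this
            _ = n := by field_simp
        · intro t ht
          rw [one_div_mul_eq_div, div_le_iff₀ hWpos]
          have := conc hu0' hua hc (by positivity) hn2 t ht
          linarith
        · rw [one_div_mul_eq_div, le_div_iff₀ hWpos]
          exact hn3.le
      · push Not at hC
        refine ⟨1, one_pos, ?_⟩
        intro k R hR
        obtain ⟨N, hN⟩ := eventually_atTop.mp (((rc_tendsto hg).eventually_ge_atTop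
          (R * (1 / 2) ^ k)).and ((avg_small hu00 (show (0:ℝ) < (1 / 2) ^ k / R by
            positivity))))
        obtain ⟨n, hn⟩ := hC (2 ^ k + W w N / u 0)
        have hN0 := W_nonneg hw0' N
        have hn1 : 1 ≤ n := by
          by_contra h0
          have : n = 0 := by omega
          subst this
          simp [W_zero] at hn
        have hWu : u 0 ≤ W u n := by
          have := W_mono hu0' hn1
          rwa [show (1:ℕ) = 0 + 1 from rfl, W_succ, W_zero, zero_add] at this
        have hWpos : 0 < W u n := lt_of_lt_of_le (hu0 0) hWu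
        have hnN : N ≤ n := by
          by_contra hlt
          push Not at hlt
          have h3 : W w n ≤ W w N := W_mono hw0' hlt.le
          have h4 : W w N ≤ W w N / u 0 * W u n := by
            calc W w N = W w N / u 0 * u 0 := by have := (hu0 0).ne'; field_simp
              _ ≤ W w N / u 0 * W u n :=
                mul_le_mul_of_nonneg_left hWu (div_nonneg hN0 (hu0' 0))
          have h5 : 0 < (2:ℝ) ^ k * W u n := by positivity
          nlinarith
        obtain ⟨ha, hb⟩ := hN n hnN
        refine ⟨n, (1 / 2) ^ k / W u n, by positivity, hn1, ?_, ?_, ?_, ?_⟩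
        · rw [div_mul_eq_mul_div, div_le_one hWpos]
          linarith
        · rw [div_mul_eq_mul_div, le_div_iff₀ hWpos]
          have := mul_le_mul_of_nonneg_left hb hR.le
          calc R * W u n ≤ R * ((1 / 2) ^ k / R * n) := this
            _ = (1 / 2) ^ k * n := by field_simp
        · intro t ht
          have h3 : (1 / 2) ^ k / W u n * W u t ≤ (1 / 2) ^ k := by
            rw [div_mul_eq_mul_div, div_le_iff₀ hWpos]
            exact mul_le_mul_of_nonneg_left (W_mono hu0' ht) (by positivity)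
          have : (0:ℝ) ≤ t / n := by positivity
          linarith
        · rw [div_mul_eq_mul_div, le_div_iff₀ hWpos, one_mul]
          have h3 : (2:ℝ) ^ k * W u n ≤ W w n := by
            have : 0 ≤ W w N / u 0 * W u n := mul_nonneg (div_nonneg hN0 (hu0' 0)) hWpos.le
            nlinarith
          have h4 : (1 / 2 : ℝ) ^ k * (2 ^ k * W u n) = W u n := by
            rw [← mul_assoc, ← mul_pow]; norm_num
          calc W u n = (1 / 2 : ℝ) ^ k * (2 ^ k * W u n) := h4.symm
            _ ≤ (1 / 2) ^ k * W w n := mul_le_mul_of_nonneg_left h3 (by positivity)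
    obtain ⟨c, hc, hP⟩ := hP
    obtain ⟨A, n, h1, h2, h3, h4, h5, h6⟩ := params hP
    obtain ⟨f, hf1, hf2⟩ := counter hab hg hl h1 h2 h3 h4 h5 hc h6
    exact hcontra f (c / 4) (by positivity) hf1 hf2
  · -- u is bounded below
    have hWu : ∀ n : ℕ, n * l ≤ W u n := by
      intro n
      have : ∑ i ∈ range n, l ≤ W u n := sum_le_sum fun i _ => hlu i
      simpa using this
    have hWw : ∀ n : ℕ, W w n ≤ n * w 0 := by
      intro n
      have : W w n ≤ ∑ i ∈ range n, w 0 := sum_le_sum fun i _ => hwa (Nat.zero_le i)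
      simpa using this
    have hC : ∃ C : ℝ, ∀ n, W w n ≤ C * W u n := by
      refine ⟨w 0 / l, fun n => ?_⟩
      have h1 := hw0' 0
      calc W w n ≤ n * w 0 := hWw n
        _ = w 0 / l * (n * l) := by field_simp
        _ ≤ w 0 / l * W u n := mul_le_mul_of_nonneg_left (hWu n) (by positivity)
    have h2 : ¬ (∀ ε > 0, ∃ δ > 0, ∃ N : ℕ, ∀ n ≥ N, (2 - δ) * W u n ≤ W u (2 * n) →
        W w n ≤ ε * W u n) := fun h2 => hno ⟨hC, h2⟩
    push Not at h2
    obtain ⟨ε, hε, h2⟩ := h2
    rcases anti_alt hw0' hwa with hw00 | ⟨c, hc, hcw⟩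
    · obtain ⟨N, hN⟩ := eventually_atTop.mp ((avg_small hw00 (show (0:ℝ) < ε * l by
        positivity)))
      obtain ⟨n, hn, _, hn3⟩ := h2 1 one_pos N
      have h3 := hN n hn
      have h4 := mul_le_mul_of_nonneg_left (hWu n) hε.le
      linarith
    · refine hcontra (fun x => x) (c * (b - a)) (by
        have : 0 < b - a := by linarith
        positivity) ?_ ?_
      · refine lt_of_le_of_lt (Var_le (K := u 0 * (b - a)) ?_) ENNReal.ofReal_lt_top
        intro n I hI
        have h3 : ∑ i ∈ range n, inc (fun x => x) (I i) * rc gam i ≤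
            ∑ i ∈ range n, ((I i).2 - (I i).1) * u 0 := by
          apply sum_le_sum
          intro i hi
          have h4 := hI.1 i (by simpa using hi)
          unfold inc
          rw [abs_of_nonneg (by linarith)]
          exact mul_le_mul_of_nonneg_left (hua (Nat.zero_le i)) (by linarith)
        rw [← sum_mul] at h3
        have h5 := mul_le_mul_of_nonneg_right (length_le hab hI) (hu0' 0)
        linarith
      · intro m
        have hF : Fam a b 1 (fun _ => (a, b)) :=
          ⟨fun _ _ => ⟨le_refl a, hab, le_refl b⟩, fun i hi j hj hij => by omega⟩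
        refine le_trans ?_ (le_Var hF)
        apply ENNReal.ofReal_le_ofReal
        simp only [range_one, sum_singleton]
        unfold inc
        have e : rc (fun i => lam (m + i)) 0 = w m := rfl
        rw [e, abs_of_pos (by linarith)]
        have := hcw m
        nlinarith

end Pool.Agent.R783.BV
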