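import Pool.Agent.R783.BV.Suff

/-!
# Generalized bounded variation: necessity
-/

namespace Pool.Agent.R783.BV

open Finset MeasureTheory Filter Topology
open scoped ENNReal

section series

variable {A : ℕ → ℝ} {n : ℕ → ℕ}

theorem A_geom (hA1 : ∀ k, 16 * A (k + 1) ≤ A k) (k j : ℕ) :
    A (j + k) ≤ A k * (1 / 16) ^ j := by
  induction j with
  | zero => simp
  | succ j ih =>
    have := hA1 (j + k)
    have e : j + 1 + k = j + k + 1 := by omega
    rw [e, pow_succ]
    linarith

theorem A_sum (hA : ∀ k, 0 < A k) (hA1 : ∀ k, 16 * A (k + 1) ≤ A k) : Summable A := by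
  refine Summable.of_nonneg_of_le (fun k => (hA k).le) (f := fun j => A 0 * (1 / 16) ^ j) ?_ ?_
  · intro j
    exact A_geom hA1 0 j
  · exact (summable_geometric_of_lt_one (by norm_num) (by norm_num)).mul_left _

theorem A_tail (hA : ∀ k, 0 < A k) (hA1 : ∀ k, 16 * A (k + 1) ≤ A k) (k : ℕ) :
    ∑' j, A (j + k) ≤ 16 / 15 * A k := by
  have h1 : Summable (fun j => A (j + k)) := (summable_nat_add_iff k).mpr (A_sum hA hA1)
  have h2 : Summable (fun j : ℕ => A k * (1 / 16 : ℝ) ^ j) :=
    (summable_geometric_of_lt_one (by norm_num) (by norm_num)).mul_left _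
  have h3 := h1.tsum_le_tsum (A_geom hA1 k) h2
  rw [tsum_mul_left, tsum_geometric_of_lt_one (by norm_num) (by norm_num)] at h3
  norm_num at h3
  linarith

theorem B_sum (hA : ∀ k, 0 < A k) (hB : ∀ k, 16 * (A k * n k) ≤ A (k + 1) * n (k + 1)) (k : ℕ) :
    ∑ j ∈ range k, A j * n j ≤ (A k * n k) / 15 := by
  induction k with
  | zero => simp; have := hA 0; positivity
  | succ k ih =>
    rw [sum_range_succ]
    have := hB k
    linarith

/-- the terms of the series -/
noncomputable def dd (A : ℕ → ℝ) (n : ℕ → ℕ) (y y' : ℝ) (j : ℕ) : ℝ :=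
  A j * ((Real.cos (Real.pi * n j * y') - Real.cos (Real.pi * n j * y)) / 2)

theorem dd_le (hA : ∀ k, 0 < A k) (y y' : ℝ) (j : ℕ) : |dd A n y y' j| ≤ A j := by
  unfold dd
  rw [abs_mul, abs_of_pos (hA j)]
  have h1 := Real.abs_cos_le_one (Real.pi * n j * y')
  have h2 := Real.abs_cos_le_one (Real.pi * n j * y)
  have h3 := abs_sub (Real.cos (Real.pi * n j * y')) (Real.cos (Real.pi * n j * y))
  have h4 : |(Real.cos (Real.pi * n j * y') - Real.cos (Real.pi * n j * y)) / 2| ≤ 1 := by
    rw [abs_div]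
    norm_num
    linarith
  have := hA j
  nlinarith

theorem dd_le' (hA : ∀ k, 0 < A k) (y y' : ℝ) (j : ℕ) :
    |dd A n y y' j| ≤ 2 * (A j * n j) * |y' - y| := by
  unfold dd
  rw [abs_mul, abs_of_pos (hA j)]
  have h1 : |Real.cos (Real.pi * n j * y') - Real.cos (Real.pi * n j * y)|
      ≤ |Real.pi * n j * y' - Real.pi * n j * y| := by
    have h := Real.abs_cos_sub_cos_le (Real.pi * n j * y') (Real.pi * n j * y)
    exact h
  have h2 : |Real.pi * n j * y' - Real.pi * n j * y| = Real.pi * n j * |y' - y| := by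
    rw [← mul_sub, abs_mul, abs_of_nonneg (by positivity)]
  have h3 := Real.pi_le_four
  have h4 : |(Real.cos (Real.pi * n j * y') - Real.cos (Real.pi * n j * y)) / 2|
      ≤ 2 * n j * |y' - y| := by
    rw [abs_div]
    norm_num
    rw [h2] at h1
    have : Real.pi * n j * |y' - y| ≤ 4 * n j * |y' - y| := by
      apply mul_le_mul_of_nonneg_right _ (abs_nonneg _)
      exact mul_le_mul_of_nonneg_right h3 (Nat.cast_nonneg _)
    linarith
  calc A j * |(Real.cos (Real.pi * n j * y') - Real.cos (Real.pi * n j * y)) / 2|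
      ≤ A j * (2 * n j * |y' - y|) := mul_le_mul_of_nonneg_left h4 (hA j).le
    _ = 2 * (A j * n j) * |y' - y| := by ring

/-- the function -/
noncomputable def hh (A : ℕ → ℝ) (n : ℕ → ℕ) (y : ℝ) : ℝ :=
  ∑' j, A j * (Real.cos (Real.pi * n j * y) / 2)

theorem hh_sub (hA : ∀ k, 0 < A k) (hA1 : ∀ k, 16 * A (k + 1) ≤ A k) (y y' : ℝ) :
    hh A n y' - hh A n y = ∑' j, dd A n y y' j := by
  have hs : ∀ y, Summable (fun j => A j * (Real.cos (Real.pi * n j * y) / 2)) := by
    intro y
    refine Summable.of_norm_bounded (A_sum hA hA1) ?_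
    intro j
    rw [Real.norm_eq_abs, abs_mul, abs_of_pos (hA j)]
    have h1 := Real.abs_cos_le_one (Real.pi * n j * y)
    have h2 : |Real.cos (Real.pi * n j * y) / 2| ≤ 1 := by
      rw [abs_div]; norm_num; linarith
    have := hA j
    nlinarith
  unfold hh
  rw [← (hs y').tsum_sub (hs y)]
  congr 1
  ext j
  unfold dd
  ring

theorem dd_summable (hA : ∀ k, 0 < A k) (hA1 : ∀ k, 16 * A (k + 1) ≤ A k) (y y' : ℝ) :
    Summable (dd A n y y') :=
  Summable.of_norm_bounded (A_sum hA hA1) (fun j => dd_le hA y y' j)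

/-- splitting the series -/
theorem hh_split (hA : ∀ k, 0 < A k) (hA1 : ∀ k, 16 * A (k + 1) ≤ A k) (y y' : ℝ) (k : ℕ) :
    |hh A n y' - hh A n y - ∑ j ∈ range k, dd A n y y' j| ≤ 16 / 15 * A k := by
  rw [hh_sub hA hA1, ← (dd_summable hA hA1 y y').sum_add_tsum_nat_add k, add_sub_cancel_left]
  have h1 : Summable (fun j => dd A n y y' (j + k)) :=
    (summable_nat_add_iff k).mpr (dd_summable hA hA1 y y')
  have h2 : Summable (fun j => A (j + k)) := (summable_nat_add_iff k).mpr (A_sum hA hA1)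
  refine le_trans ?_ (A_tail hA hA1 k)
  have h3 : ‖∑' j, dd A n y y' (j + k)‖ ≤ ∑' j, A (j + k) :=
    tsum_of_norm_bounded h2.hasSum (fun j => dd_le hA y y' (j + k))
  exact h3

theorem sum_dd (hA : ∀ k, 0 < A k) (hB : ∀ k, 16 * (A k * n k) ≤ A (k + 1) * n (k + 1))
    (y y' : ℝ) (k : ℕ) :
    |∑ j ∈ range k, dd A n y y' j| ≤ 2 * (∑ j ∈ range k, A j * n j) * |y' - y| := by
  refine (abs_sum_le_sum_abs _ _).trans ?_
  rw [mul_sum, sum_mul]
  exact sum_le_sum fun j _ => dd_le' hA y y' j

theorem hh_le_zero (hA : ∀ k, 0 < A k) (hA1 : ∀ k, 16 * A (k + 1) ≤ A k) (y y' : ℝ) :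
    |hh A n y' - hh A n y| ≤ 2 * A 0 := by
  have := hh_split (n := n) hA hA1 y y' 0
  simp only [range_zero, sum_empty, sub_zero] at this
  have := hA 0
  linarith

theorem hh_le_succ (hA : ∀ k, 0 < A k) (hA1 : ∀ k, 16 * A (k + 1) ≤ A k)
    (hB : ∀ k, 16 * (A k * n k) ≤ A (k + 1) * n (k + 1)) (y y' : ℝ) (k : ℕ) :
    |hh A n y' - hh A n y| ≤ 4 * (A k * n k) * |y' - y| + 2 * A (k + 1) := by
  have h1 := hh_split (n := n) hA hA1 y y' (k + 1)
  have h2 := sum_dd hA hB y y' (k + 1)
  have h3 := B_sum hA hB k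
  rw [sum_range_succ (fun j => A j * (n j : ℝ))] at h2
  have h4 := hA (k + 1)
  have h5 : 2 * ((∑ j ∈ range k, A j * (n j : ℝ)) + A k * n k) * |y' - y|
      ≤ 4 * (A k * n k) * |y' - y| := by
    apply mul_le_mul_of_nonneg_right _ (abs_nonneg _)
    have : 0 ≤ A k * n k := by have := hA k; positivity
    linarith
  have h6 := abs_sub_abs_le_abs_sub (hh A n y' - hh A n y) (∑ j ∈ range (k + 1), dd A n y y' j)
  linarith

theorem hh_ge (hA : ∀ k, 0 < A k) (hA1 : ∀ k, 16 * A (k + 1) ≤ A k)
    (hB : ∀ k, 16 * (A k * n k) ≤ A (k + 1) * n (k + 1)) (hn : ∀ k, 1 ≤ n k) (k i : ℕ) :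
    A k / 2 ≤ |hh A n (((i + 1 : ℕ) : ℝ) / n k) - hh A n ((i : ℝ) / n k)| := by
  set y := (i : ℝ) / n k with hy
  set y' := ((i + 1 : ℕ) : ℝ) / n k with hy'
  have hnk : (0 : ℝ) < n k := by exact_mod_cast hn k
  have hd : |y' - y| = 1 / n k := by
    rw [hy, hy', ← sub_div]
    push_cast
    rw [add_sub_cancel_left, abs_of_pos (by positivity)]
  have h1 := hh_split (n := n) hA hA1 y y' (k + 1)
  rw [sum_range_succ] at h1
  have h2 := sum_dd hA hB y y' k
  have h3 := B_sum hA hB k
  have h4 : |dd A n y y' k| = A k := by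
    unfold dd
    have e1 : Real.pi * n k * y' = Real.pi * n k * y + Real.pi := by
      rw [hy, hy']; push_cast; field_simp
    have e2 : Real.pi * n k * y = i * Real.pi := by
      rw [hy]; field_simp
    rw [e1, Real.cos_add_pi, e2]
    have h5 : |Real.cos (i * Real.pi)| = 1 := by
      rw [Real.cos_nat_mul_pi, abs_pow, abs_neg, abs_one, one_pow]
    rw [abs_mul, abs_of_pos (hA k)]
    have : (-Real.cos (i * Real.pi) - Real.cos (i * Real.pi)) / 2 = -Real.cos (i * Real.pi) := by
      ring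
    rw [this, abs_neg, h5, mul_one]
  have h5 : 2 * (∑ j ∈ range k, A j * (n j : ℝ)) * |y' - y| ≤ 2 / 15 * A k := by
    rw [hd]
    calc 2 * (∑ j ∈ range k, A j * (n j : ℝ)) * (1 / n k)
        ≤ 2 * (A k * n k / 15) * (1 / n k) := by
          apply mul_le_mul_of_nonneg_right _ (by positivity)
          linarith
      _ = 2 / 15 * A k := by field_simp
  have h6 := hA1 k
  have h7 := hA k
  have h8 := abs_sub_abs_le_abs_sub (dd A n y y' k)
    (-(hh A n y' - hh A n y - ∑ j ∈ range k, dd A n y y' j - dd A n y y' k))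
  have h9 : dd A n y y' k -
    -(hh A n y' - hh A n y - ∑ j ∈ range k, dd A n y y' j - dd A n y y' k)
      = (hh A n y' - hh A n y) - ∑ j ∈ range k, dd A n y y' j := by ring
  rw [h9, abs_neg] at h8
  have h10 := abs_sub (hh A n y' - hh A n y) (∑ j ∈ range k, dd A n y y' j)
  have h11 : |hh A n y' - hh A n y - ∑ j ∈ range k, dd A n y y' j - dd A n y y' k|
      ≤ 16 / 15 * A (k + 1) := by
    rw [sub_sub]; exact h1
  linarith

end series

/-- total length of a nonoverlapping family -/
theorem length_le {a b : ℝ} (hab : a < b) {N : ℕ} {I : ℕ → ℝ × ℝ} (h : Fam a b N I) :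
    ∑ i ∈ range N, ((I i).2 - (I i).1) ≤ b - a := by
  have h1 : volume (⋃ i ∈ range N, Set.Ioo (I i).1 (I i).2) =
      ∑ i ∈ range N, volume (Set.Ioo (I i).1 (I i).2) := by
    apply measure_biUnion_finset
    · intro i hi j hj hij
      have hi' : i < N := by simpa using hi
      have hj' : j < N := by simpa using hj
      show Disjoint (Set.Ioo (I i).1 (I i).2) (Set.Ioo (I j).1 (I j).2)
      rw [Set.disjoint_left]
      intro x hx hx'
      rcases h.2 i hi' j hj' hij with h | h
      · linarith [hx.1, hx.2, hx'.1, hx'.2]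
      · linarith [hx.1, hx.2, hx'.1, hx'.2]
    · intro i _
      exact measurableSet_Ioo
  have h2 : volume (⋃ i ∈ range N, Set.Ioo (I i).1 (I i).2) ≤ volume (Set.Icc a b) := by
    apply measure_mono
    apply Set.iUnion₂_subset
    intro i hi x hx
    have := h.1 i (by simpa using hi)
    exact ⟨by linarith [hx.1], by linarith [hx.2]⟩
  rw [h1, Real.volume_Icc] at h2
  have h3 : ∑ i ∈ range N, volume (Set.Ioo (I i).1 (I i).2)
      = ENNReal.ofReal (∑ i ∈ range N, ((I i).2 - (I i).1)) := by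
    rw [ENNReal.ofReal_sum_of_nonneg]
    · apply sum_congr rfl
      intro i _
      rw [Real.volume_Ioo]
    · intro i hi
      have := h.1 i (by simpa using hi)
      linarith
  rw [h3] at h2
  exact (ENNReal.ofReal_le_ofReal_iff (by linarith)).mp h2

/-- abstract estimate of the weighted sum -/
theorem upper {u : ℕ → ℝ} (hu0 : ∀ i, 0 ≤ u i) (hu : Antitone u) {A : ℕ → ℝ} {n : ℕ → ℕ}
    (hA : ∀ k, 0 < A k) (hn : ∀ k, 2 ^ k ≤ n k)
    (hU : ∀ k, ∀ t ≤ n k, A k * W u t ≤ t / n k + (1 / 2) ^ k)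
    (N : ℕ) (x l : ℕ → ℝ) (hl : ∀ i < N, 0 < l i) (hl1 : ∑ i ∈ range N, l i ≤ 1)
    (hx0 : ∀ i < N, x i ≤ 2 * A 0)
    (hxk : ∀ i < N, ∀ k, x i ≤ 4 * (A k * n k) * l i + 2 * A (k + 1)) :
    ∑ i ∈ range N, x i * u i ≤ 42 := by
  classical
  have hnpos : ∀ k, (0 : ℝ) < n k := fun k => by
    have : 0 < n k := lt_of_lt_of_le (by positivity) (hn k)
    exact_mod_cast this
  -- classes
  have hex : ∀ i, i < N → ∃ k, 1 ≤ n k * l i := by
    intro i hi
    obtain ⟨k, hk⟩ := exists_nat_gt (1 / l i)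
    refine ⟨k, ?_⟩
    have h1 : (k : ℝ) ≤ n k := by
      have : k ≤ n k := (Nat.lt_two_pow_self).le.trans (hn k)
      exact_mod_cast this
    have h2 := hl i hi
    rw [div_lt_iff₀ h2] at hk
    nlinarith
  let κ : ℕ → ℕ := fun i => if h : i < N then Nat.find (hex i h) else 0
  have hκ1 : ∀ i, i < N → 1 ≤ n (κ i) * l i := by
    intro i hi
    have : κ i = Nat.find (hex i hi) := by simp [κ, hi]
    rw [this]
    exact Nat.find_spec (hex i hi)
  have hκ2 : ∀ i, i < N → ∀ k, κ i = k + 1 → n k * l i ≤ 1 := by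
    intro i hi k hk
    have h1 : κ i = Nat.find (hex i hi) := by simp [κ, hi]
    rw [h1] at hk
    have h2 := Nat.find_min (hex i hi) (m := k) (by omega)
    exact (not_le.mp h2).le
  set K := (range N).sup κ + 1 with hK
  have hmaps : ∀ i ∈ range N, κ i ∈ range K := by
    intro i hi
    have := le_sup (f := κ) hi
    simp [hK]; omega
  rw [← sum_fiberwise_of_maps_to hmaps]
  have hsl : ∑ k ∈ range K, ∑ i ∈ (range N).filter (fun i => κ i = k), l i ≤ 1 := by
    rw [sum_fiberwise_of_maps_to hmaps]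
    exact hl1
  have hθ0 : ∀ k, 0 ≤ ∑ i ∈ (range N).filter (fun i => κ i = k), l i := by
    intro k
    apply sum_nonneg
    intro i hi
    simp only [mem_filter, mem_range] at hi
    exact (hl i hi.1).le
  have hθ1 : ∀ k, ∑ i ∈ (range N).filter (fun i => κ i = k), l i ≤ 1 := by
    intro k
    refine le_trans ?_ hl1
    apply sum_le_sum_of_subset_of_nonneg (filter_subset _ _)
    intro i hi _
    exact (hl i (by simpa using hi)).le
  have halpha : ∀ k, ∑ i ∈ (range N).filter (fun i => κ i = k), A k * u i ≤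
      (∑ i ∈ (range N).filter (fun i => κ i = k), l i) + (1 / 2) ^ k := by
    intro k
    set S := (range N).filter (fun i => κ i = k) with hS
    rw [← mul_sum]
    have h1 := sum_le_W hu0 hu S
    have h2 : (S.card : ℝ) ≤ n k * ∑ i ∈ S, l i := by
      rw [mul_sum]
      calc (S.card : ℝ) = ∑ i ∈ S, (1 : ℝ) := by simp
        _ ≤ ∑ i ∈ S, n k * l i := by
            apply sum_le_sum
            intro i hi
            simp only [hS, mem_filter, mem_range] at hi
            have := hκ1 i hi.1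
            rwa [hi.2] at this
    have h3 : S.card ≤ n k := by
      have : (S.card : ℝ) ≤ n k := h2.trans (by
        have := hθ1 k
        have := hnpos k
        nlinarith)
      exact_mod_cast this
    have h4 := hU k S.card h3
    have h5 : (S.card : ℝ) / n k ≤ ∑ i ∈ S, l i := by
      rw [div_le_iff₀ (hnpos k)]; linarith
    have h6 := mul_le_mul_of_nonneg_left h1 (hA k).le
    linarith
  have hbeta : ∀ k, ∑ i ∈ (range N).filter (fun i => κ i = k + 1), A k * n k * l i * u i ≤
      (∑ i ∈ (range N).filter (fun i => κ i = k + 1), l i) + 1 / n k + (1 / 2) ^ k := by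
    intro k
    set S := (range N).filter (fun i => κ i = k + 1) with hS
    set θ := ∑ i ∈ S, l i with hθ
    have h1 := bathtub hu0 hu S (fun i => n k * l i) (by
      intro i hi
      simp only [hS, mem_filter, mem_range] at hi
      refine ⟨?_, hκ2 i hi.1 k hi.2⟩
      have := hl i hi.1
      have := hnpos k
      positivity) ⌈(n k : ℝ) * θ⌉₊ (by
        rw [← mul_sum]
        exact Nat.le_ceil _)
    have h2 : ⌈(n k : ℝ) * θ⌉₊ ≤ n k := by
      rw [Nat.ceil_le]
      have := hθ1 (k + 1)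
      have := hnpos k
      nlinarith
    have h3 := hU k _ h2
    have h4 : (⌈(n k : ℝ) * θ⌉₊ : ℝ) ≤ n k * θ + 1 :=
      (Nat.ceil_lt_add_one (mul_nonneg (hnpos k).le (hθ0 (k + 1)))).le
    have h5 : (⌈(n k : ℝ) * θ⌉₊ : ℝ) / n k ≤ θ + 1 / n k := by
      rw [div_le_iff₀ (hnpos k)]
      have : (θ + 1 / n k) * n k = n k * θ + 1 := by
        have := (hnpos k).ne'
        field_simp
      linarith
    have h6 := mul_le_mul_of_nonneg_left h1 (hA k).le
    have h7 : ∑ i ∈ S, A k * n k * l i * u i = A k * ∑ i ∈ S, (n k * l i) * u i := by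
      rw [mul_sum]
      apply sum_congr rfl
      intro i _
      ring
    linarith
  have hclass : ∀ k, ∑ i ∈ (range N).filter (fun i => κ i = k), x i * u i ≤
      6 * (∑ i ∈ (range N).filter (fun i => κ i = k), l i) + 18 * (1 / 2) ^ k := by
    intro k
    rcases k with _ | k
    · have h1 : ∑ i ∈ (range N).filter (fun i => κ i = 0), x i * u i ≤
          ∑ i ∈ (range N).filter (fun i => κ i = 0), 2 * (A 0 * u i) := by
        apply sum_le_sum
        intro i hi
        simp only [mem_filter, mem_range] at hi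
        have := mul_le_mul_of_nonneg_right (hx0 i hi.1) (hu0 i)
        linarith
      rw [← mul_sum] at h1
      have h2 := halpha 0
      have h3 := hθ0 0
      simp only [pow_zero] at h2 ⊢
      linarith
    · have h1 : ∑ i ∈ (range N).filter (fun i => κ i = k + 1), x i * u i ≤
          ∑ i ∈ (range N).filter (fun i => κ i = k + 1),
            (4 * (A k * n k * l i * u i) + 2 * (A (k + 1) * u i)) := by
        apply sum_le_sum
        intro i hi
        simp only [mem_filter, mem_range] at hi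
        have := mul_le_mul_of_nonneg_right (hxk i hi.1 k) (hu0 i)
        linarith
      rw [sum_add_distrib, ← mul_sum, ← mul_sum] at h1
      have h2 := halpha (k + 1)
      have h3 := hbeta k
      have h4 := hθ0 (k + 1)
      have h5 : 1 / (n k : ℝ) ≤ (1 / 2) ^ k := by
        rw [one_div, one_div, inv_pow]
        apply inv_anti₀ (by positivity)
        exact_mod_cast hn k
      rw [pow_succ] at h2 ⊢
      have h6 : (0:ℝ) < (1 / 2) ^ k := by positivity
      linarith
  have hgeo : ∑ k ∈ range K, (1 / 2 : ℝ) ^ k ≤ 2 := sum_geometric_two_le K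
  calc ∑ k ∈ range K, ∑ i ∈ (range N).filter (fun i => κ i = k), x i * u i
      ≤ ∑ k ∈ range K, (6 * (∑ i ∈ (range N).filter (fun i => κ i = k), l i)
        + 18 * (1 / 2) ^ k) := sum_le_sum fun k _ => hclass k
    _ = 6 * (∑ k ∈ range K, ∑ i ∈ (range N).filter (fun i => κ i = k), l i)
        + 18 * ∑ k ∈ range K, (1 / 2 : ℝ) ^ k := by
        rw [sum_add_distrib, mul_sum, mul_sum]
    _ ≤ 42 := by linarith

/-- **the counterexample** -/
theorem counter {a b : ℝ} (hab : a < b) {gam lam : ℕ → ℝ} (hg : LSeq gam) (hl : LSeq lam)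
    {A : ℕ → ℝ} {n : ℕ → ℕ} (hA : ∀ k, 0 < A k) (hn : ∀ k, 1 ≤ n k)
    (hA1 : ∀ k, 16 * A (k + 1) ≤ A k)
    (hB : ∀ k, 16 * (A k * n k) ≤ A (k + 1) * n (k + 1))
    (hU : ∀ k, ∀ t ≤ n k, A k * W (rc gam) t ≤ t / n k + (1 / 2) ^ k)
    {c : ℝ} (hc : 0 < c) (hc2 : ∀ k, c ≤ A k * W (rc lam) (n k)) :
    ∃ f : ℝ → ℝ, Var a b gam f < ⊤ ∧
      ∀ m, ENNReal.ofReal (c / 4) ≤ Var a b (fun i => lam (m + i)) f := by
  have hu0 : ∀ i, 0 ≤ rc gam i := fun i => (rc_pos hg i).le
  have hw0 : ∀ i, 0 ≤ rc lam i := fun i => (rc_pos hl i).le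
  have hL : 0 < b - a := by linarith
  have hn2 : ∀ k, 2 ^ k ≤ n k := by
    intro k
    induction k with
    | zero => simpa using hn 0
    | succ k ih =>
      have h1 := hB k
      have h2 := hA1 k
      have h3 := hA k
      have h4 := hA (k + 1)
      have h5 : (2 : ℝ) * n k ≤ n (k + 1) := by
        by_contra hlt
        push Not at hlt
        have h6 : (0:ℝ) < n k := by exact_mod_cast hn k
        have h7 : A (k + 1) * n (k + 1) < A (k + 1) * (2 * n k) := mul_lt_mul_of_pos_left hlt h4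
        nlinarith [mul_pos h3 h6, mul_pos h4 h6]
      have h6 : 2 * n k ≤ n (k + 1) := by exact_mod_cast h5
      rw [pow_succ]
      omega
  refine ⟨fun x => hh A n ((x - a) / (b - a)), ?_, ?_⟩
  · refine lt_of_le_of_lt (Var_le (K := 42) ?_) ENNReal.ofReal_lt_top
    intro N I hI
    have hyy : ∀ i < N, |(((I i).2 - a) / (b - a)) - (((I i).1 - a) / (b - a))|
        = ((I i).2 - (I i).1) / (b - a) := by
      intro i hi
      have := hI.1 i hi
      rw [← sub_div, abs_of_nonneg (div_nonneg (by linarith) hL.le)]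
      congr 1; ring
    apply upper hu0 (rc_anti hg) hA hn2 hU N _ (fun i => ((I i).2 - (I i).1) / (b - a))
    · intro i hi
      have := hI.1 i hi
      exact div_pos (by linarith) hL
    · rw [← sum_div, div_le_one hL]
      exact length_le hab hI
    · intro i _
      exact hh_le_zero hA hA1 _ _
    · intro i hi k
      have := hh_le_succ hA hA1 hB (((I i).1 - a) / (b - a)) (((I i).2 - a) / (b - a)) k
      rw [hyy i hi] at this
      exact this
  · intro m
    -- choose k with A k * W (rc lam) m small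
    have hA0 : Tendsto A atTop (𝓝 0) := (A_sum hA hA1).tendsto_atTop_zero
    have h1 : Tendsto (fun k => A k * W (rc lam) m) atTop (𝓝 0) := by
      simpa using hA0.mul_const (W (rc lam) m)
    obtain ⟨k, hk⟩ := (h1.eventually (gt_mem_nhds (show (0:ℝ) < c / 2 by positivity))).exists
    have hnk : (0 : ℝ) < n k := by exact_mod_cast hn k
    set I : ℕ → ℝ × ℝ := fun i => (a + (b - a) * (i / n k), a + (b - a) * ((i + 1 : ℕ) / n k))
      with hI
    have hFam : Fam a b (n k) I := by
      constructor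
      · intro i hi
        have h2 : (0:ℝ) ≤ i / n k := by positivity
        have h3 : ((i : ℝ)) / n k < ((i + 1 : ℕ) : ℝ) / n k := by
          apply div_lt_div_of_pos_right _ hnk
          push_cast; linarith
        have h4 : ((i + 1 : ℕ) : ℝ) / n k ≤ 1 := by
          rw [div_le_one hnk]
          exact_mod_cast hi
        refine ⟨?_, ?_, ?_⟩
        · show a ≤ a + (b - a) * (i / n k)
          nlinarith
        · show a + (b - a) * (i / n k) < a + (b - a) * ((i + 1 : ℕ) / n k)
          nlinarith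
        · show a + (b - a) * ((i + 1 : ℕ) / n k) ≤ b
          nlinarith
      · have hlt : ∀ i j : ℕ, i < j → (I i).2 ≤ (I j).1 := by
          intro i j hij
          show a + (b - a) * ((i + 1 : ℕ) / n k) ≤ a + (b - a) * (j / n k)
          have h3 : ((i + 1 : ℕ) : ℝ) / n k ≤ (j : ℝ) / n k := by
            apply div_le_div_of_nonneg_right _ hnk.le
            exact_mod_cast hij
          nlinarith
        intro i hi j hj hij
        rcases lt_or_gt_of_ne hij with h | h
        · exact Or.inl (hlt i j h)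
        · exact Or.inr (hlt j i h)
    refine le_trans ?_ (le_Var hFam)
    apply ENNReal.ofReal_le_ofReal
    have hinc : ∀ i, A k / 2 ≤ inc (fun x => hh A n ((x - a) / (b - a))) (I i) := by
      intro i
      have h2 := hh_ge hA hA1 hB hn k i
      unfold inc
      have e1 : ((I i).1 - a) / (b - a) = i / n k := by
        show ((a + (b - a) * (i / n k)) - a) / (b - a) = i / n k
        field_simp
        ring
      have e2 : ((I i).2 - a) / (b - a) = ((i + 1 : ℕ) : ℝ) / n k := by
        show ((a + (b - a) * ((i + 1 : ℕ) / n k)) - a) / (b - a) = ((i + 1 : ℕ) : ℝ) / n k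
        field_simp
        ring
      show A k / 2 ≤ |hh A n (((I i).2 - a) / (b - a)) - hh A n (((I i).1 - a) / (b - a))|
      rw [e1, e2]
      exact h2
    calc c / 4 ≤ A k / 2 * (W (rc lam) (m + n k) - W (rc lam) m) := by
          have h3 : W (rc lam) (n k) ≤ W (rc lam) (m + n k) := W_mono hw0 (by omega)
          have h4 := hc2 k
          have h5 := hA k
          nlinarith
      _ = ∑ i ∈ range (n k), A k / 2 * rc (fun i => lam (m + i)) i := by
          rw [W_add, add_sub_cancel_left, mul_sum]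
          rfl
      _ ≤ ∑ i ∈ range (n k), inc (fun x => hh A n ((x - a) / (b - a))) (I i) *
          rc (fun i => lam (m + i)) i := by
          apply sum_le_sum
          intro i _
          exact mul_le_mul_of_nonneg_right (hinc i) (hw0 (m + i))

/-- recursive choice of the parameters -/
theorem params {u w : ℕ → ℝ} {c : ℝ}
    (h : ∀ (k : ℕ) (R : ℝ), 0 < R → ∃ (n : ℕ) (A : ℝ), 0 < A ∧ 1 ≤ n ∧ A * R ≤ 1 ∧ R ≤ A * n ∧
      (∀ t ≤ n, A * W u t ≤ t / n + (1 / 2) ^ k) ∧ c ≤ A * W w n) :
    ∃ (A : ℕ → ℝ) (n : ℕ → ℕ), (∀ k, 0 < A k) ∧ (∀ k, 1 ≤ n k) ∧ (∀ k, 16 * A (k + 1) ≤ A k) ∧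
      (∀ k, 16 * (A k * n k) ≤ A (k + 1) * n (k + 1)) ∧
      (∀ k, ∀ t ≤ n k, A k * W u t ≤ t / n k + (1 / 2) ^ k) ∧ (∀ k, c ≤ A k * W w (n k)) := by
  choose! N A h1 h2 h3 h4 h5 h6 using h
  let R : ℕ → ℝ := fun k => Nat.rec 1 (fun k r => 16 / A k r + 16 * (A k r * N k r) + 1) k
  have hRs : ∀ k, R (k + 1) = 16 / A k (R k) + 16 * (A k (R k) * N k (R k)) + 1 := fun k => rfl
  have hR : ∀ k, 0 < R k := by
    intro k
    induction k with
    | zero => exact one_pos
    | succ k ih =>
      rw [hRs]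
      have := h1 k (R k) ih
      positivity
  refine ⟨fun k => A k (R k), fun k => N k (R k), fun k => h1 k _ (hR k), fun k => h2 k _ (hR k),
    ?_, ?_, fun k => h5 k _ (hR k), fun k => h6 k _ (hR k)⟩
  · intro k
    have ha := h1 k _ (hR k)
    have ha' := h1 (k + 1) _ (hR (k + 1))
    have hb := h3 (k + 1) _ (hR (k + 1))
    have hc : 16 / A k (R k) ≤ R (k + 1) := by
      rw [hRs]
      have : 0 ≤ A k (R k) * N k (R k) := by positivity
      linarith
    have hd : A (k + 1) (R (k + 1)) * (16 / A k (R k)) ≤ 1 :=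
      (mul_le_mul_of_nonneg_left hc ha'.le).trans hb
    have he : A (k + 1) (R (k + 1)) * (16 / A k (R k))
        = (16 * A (k + 1) (R (k + 1))) / A k (R k) := by ring
    rw [he, div_le_one ha] at hd
    exact hd
  · intro k
    have ha := h1 k _ (hR k)
    have hb := h4 (k + 1) _ (hR (k + 1))
    refine le_trans ?_ hb
    rw [hRs]
    have : 0 < 16 / A k (R k) := by positivity
    linarith

end Pool.Agent.R783.BV
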