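import Pool.Agent.R783.BV.Core

/-!
# Generalized bounded variation: sufficiency
-/

namespace Pool.Agent.R783.BV

open Finset MeasureTheory Filter Topology
open scoped ENNReal

/-- `Λ`-sequence: positive, nondecreasing, with divergent sum of reciprocals -/
def LSeq (lam : ℕ → ℝ) : Prop :=
  (∀ i, 0 < lam i) ∧ Monotone lam ∧ Tendsto (fun n => ∑ i ∈ range n, 1 / lam i) atTop atTop

/-- `I 0, ..., I (n-1)` are nonoverlapping closed subintervals of `[a,b]` -/
def Fam (a b : ℝ) (n : ℕ) (I : ℕ → ℝ × ℝ) : Prop :=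
  (∀ i < n, a ≤ (I i).1 ∧ (I i).1 < (I i).2 ∧ (I i).2 ≤ b) ∧
    ∀ i < n, ∀ j < n, i ≠ j → (I i).2 ≤ (I j).1 ∨ (I j).2 ≤ (I i).1

/-- the Waterman variation -/
noncomputable def Var (a b : ℝ) (lam : ℕ → ℝ) (f : ℝ → ℝ) : ℝ≥0∞ :=
  ⨆ (n : ℕ) (I : ℕ → ℝ × ℝ) (_ : Fam a b n I),
    ENNReal.ofReal (∑ i ∈ range n, |f (I i).2 - f (I i).1| / lam i)

/-- increment -/
noncomputable def inc (f : ℝ → ℝ) (I : ℝ × ℝ) : ℝ := |f I.2 - f I.1|

theorem inc_nonneg (f : ℝ → ℝ) (I : ℝ × ℝ) : 0 ≤ inc f I := abs_nonneg _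

/-- the reciprocals -/
noncomputable def rc (lam : ℕ → ℝ) (i : ℕ) : ℝ := 1 / lam i

theorem rc_pos {lam : ℕ → ℝ} (h : LSeq lam) (i : ℕ) : 0 < rc lam i := one_div_pos.mpr (h.1 i)

theorem rc_anti {lam : ℕ → ℝ} (h : LSeq lam) : Antitone (rc lam) := fun i j hij =>
  one_div_le_one_div_of_le (h.1 i) (h.2.1 hij)

theorem rc_tendsto {lam : ℕ → ℝ} (h : LSeq lam) : Tendsto (W (rc lam)) atTop atTop := h.2.2

theorem le_Var {a b : ℝ} {lam : ℕ → ℝ} {f : ℝ → ℝ} {n : ℕ} {I : ℕ → ℝ × ℝ} (h : Fam a b n I) :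
    ENNReal.ofReal (∑ i ∈ range n, inc f (I i) * rc lam i) ≤ Var a b lam f := by
  have h1 : ∑ i ∈ range n, inc f (I i) * rc lam i
      = ∑ i ∈ range n, |f (I i).2 - f (I i).1| / lam i := by
    apply sum_congr rfl
    intro i _
    unfold inc rc
    ring
  rw [h1]
  unfold Var
  exact le_iSup_of_le n (le_iSup_of_le I (le_iSup_of_le h le_rfl))

theorem Var_le {a b : ℝ} {lam : ℕ → ℝ} {f : ℝ → ℝ} {K : ℝ}
    (h : ∀ n I, Fam a b n I → ∑ i ∈ range n, inc f (I i) * rc lam i ≤ K) :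
    Var a b lam f ≤ ENNReal.ofReal K := by
  unfold Var
  refine iSup_le fun n => iSup_le fun I => iSup_le fun hI => ?_
  apply ENNReal.ofReal_le_ofReal
  refine le_trans (le_of_eq ?_) (h n I hI)
  apply sum_congr rfl
  intro i _
  unfold inc rc
  ring

theorem bound_of_lt {a b : ℝ} {lam : ℕ → ℝ} (hl : LSeq lam) {f : ℝ → ℝ}
    (h : Var a b lam f < ⊤) : ∃ K : ℝ, 0 ≤ K ∧ ∀ n I, Fam a b n I →
      ∑ i ∈ range n, inc f (I i) * rc lam i ≤ K := by
  refine ⟨(Var a b lam f).toReal, ENNReal.toReal_nonneg, ?_⟩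
  intro n I hI
  have h1 := le_Var (lam := lam) (f := f) hI
  rwa [ENNReal.ofReal_le_iff_le_toReal h.ne] at h1

/-- from the ordered families to the layer-cake integrals -/
theorem int_bound {a b : ℝ} {u : ℕ → ℝ} (hu0 : ∀ i, 0 ≤ u i) {f : ℝ → ℝ} {K : ℝ}
    (h : ∀ n I, Fam a b n I → ∑ i ∈ range n, inc f (I i) * u i ≤ K)
    (F : Finset (ℝ × ℝ)) (hF : FF a b F) (c : ℝ) (hc : 0 ≤ c) :
    ∫ x in (0:ℝ)..c, W u (cnt (inc f) F x) ≤ K := by
  obtain ⟨I, h1, h2, h3⟩ := sum_enum (u := u) (inc f) (inc_nonneg f) F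
  set R := max c (∑ x ∈ F, inc f x) with hR
  have hR1 : ∀ x ∈ F, inc f x ≤ R := fun x hx =>
    (single_le_sum (fun y _ => inc_nonneg f y) hx).trans (le_max_right _ _)
  have h4 := h3 R hR1
  have hFam : Fam a b F.card I := by
    refine ⟨fun i hi => hF.1 _ (h1 i hi), ?_⟩
    intro i hi j hj hij
    exact hF.2 _ (h1 i hi) _ (h1 j hj) (fun h => hij (h2 i hi j hj h))
  have h5 := h _ _ hFam
  rw [h4] at h5
  have h6 := intervalIntegral.integral_add_adjacent_intervals (ii (inc f) (W u) F 0 c)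
    (ii (inc f) (W u) F c R)
  have h7 : 0 ≤ ∫ x in c..R, W u (cnt (inc f) F x) :=
    intervalIntegral.integral_nonneg (le_max_left _ _) (fun _ _ => W_nonneg hu0 _)
  linarith

theorem Fam_inj {a b : ℝ} {n : ℕ} {I : ℕ → ℝ × ℝ} (h : Fam a b n I) :
    ∀ i < n, ∀ j < n, I i = I j → i = j := by
  intro i hi j hj hij
  by_contra hne
  have h1 := (h.1 i hi).2.1
  have h2 := h.2 i hi j hj hne
  rw [← hij] at h2
  rcases h2 with h2 | h2 <;> linarith

theorem Fam_FF {a b : ℝ} {n : ℕ} {I : ℕ → ℝ × ℝ} (h : Fam a b n I) :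
    FF a b ((range n).image I) := by
  constructor
  · intro J hJ
    obtain ⟨i, hi, rfl⟩ := mem_image.mp hJ
    exact h.1 i (mem_range.mp hi)
  · intro J hJ J' hJ' hne
    obtain ⟨i, hi, rfl⟩ := mem_image.mp hJ
    obtain ⟨j, hj, rfl⟩ := mem_image.mp hJ'
    exact h.2 i (mem_range.mp hi) j (mem_range.mp hj) (fun h => hne (by rw [h]))

/-- the half-index form of the second condition -/
theorem cond2 {u w : ℕ → ℝ} (hu0 : ∀ i, 0 < u i) (hu : Antitone u)
    (hinf : Tendsto (W u) atTop atTop) (hw0 : ∀ i, 0 ≤ w i) (hw : Antitone w)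
    (h : ∀ ε > 0, ∃ δ > 0, ∃ N : ℕ, ∀ n ≥ N, (2 - δ) * W u n ≤ W u (2 * n) →
      W w n ≤ ε * W u n) :
    ∀ δ > 0, ∃ η > 0, ∃ i0 : ℕ, ∀ i ≥ i0, δ * W u i ≤ W w i → η * W u i ≤ gain u i := by
  intro δ' hδ'
  obtain ⟨δ, hδ, N, hN⟩ := h (δ' / 4) (by positivity)
  obtain ⟨N1, hN1⟩ := eventually_atTop.mp (hinf.eventually_ge_atTop (2 * u 0 / δ + 1))
  refine ⟨δ / 4, by positivity, 2 * (N + N1 + 1), ?_⟩
  intro i hi hLi
  by_contra hg
  push Not at hg
  have hu0' : ∀ i, 0 ≤ u i := fun i => (hu0 i).le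
  set n := (i + 1) / 2 with hn
  have hnN : N ≤ n := by omega
  have hnN1 : N1 ≤ n := by omega
  have h1 : W u i ≤ W u (2 * n) := W_mono hu0' (by omega)
  have h2 := W_two_mul hu n
  have h3 : W u n ≤ W u (i / 2) + u 0 := by
    have : W u n ≤ W u (i / 2 + 1) := W_mono hu0' (by omega)
    rw [W_succ] at this
    linarith [hu (Nat.zero_le (i / 2))]
  unfold gain at hg
  rw [← hn] at hg
  have h4 := hN1 n hnN1
  have h5 : u 0 ≤ δ / 2 * W u n := by
    have : 2 * u 0 / δ ≤ W u n := by linarith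
    rw [div_le_iff₀ hδ] at this
    linarith
  have h6 := hN n hnN (by nlinarith)
  have h7 : W w i ≤ W w (2 * n) := W_mono hw0 (by omega)
  have h8 := W_two_mul hw n
  have h9 : W u n ≤ W u i := W_mono hu0' (by omega)
  have h10 : 0 < W u n := by
    have : 0 ≤ 2 * u 0 / δ := by have := hu0 0; positivity
    linarith
  nlinarith

/-- an antitone nonnegative sequence tends to zero or is bounded below -/
theorem anti_alt {w : ℕ → ℝ} (hw0 : ∀ i, 0 ≤ w i) (hw : Antitone w) :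
    Tendsto w atTop (𝓝 0) ∨ ∃ c > 0, ∀ i, c ≤ w i := by
  by_cases h : ∃ c > 0, ∀ i, c ≤ w i
  · exact Or.inr h
  · left
    push Not at h
    rw [Metric.tendsto_atTop]
    intro ε hε
    obtain ⟨N, hN⟩ := h ε hε
    refine ⟨N, fun n hn => ?_⟩
    rw [Real.dist_eq, sub_zero, abs_of_nonneg (hw0 n)]
    exact lt_of_le_of_lt (hw hn) hN

theorem W_avg {u : ℕ → ℝ} {l : ℝ} (h : Tendsto u atTop (𝓝 l)) :
    Tendsto (fun n : ℕ => W u n / n) atTop (𝓝 l) := by
  have := h.cesaro
  refine this.congr ?_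
  intro n
  unfold W
  rw [div_eq_inv_mul]

theorem w_tendsto {u w : ℕ → ℝ} (hu0 : ∀ i, 0 < u i) (hu : Antitone u)
    (hw0 : ∀ i, 0 ≤ w i) (hw : Antitone w) {C : ℝ} (hC : 0 < C)
    (h1 : ∀ n, W w n ≤ C * W u n)
    (h : ∀ ε > 0, ∃ δ > 0, ∃ N : ℕ, ∀ n ≥ N, (2 - δ) * W u n ≤ W u (2 * n) →
      W w n ≤ ε * W u n) :
    Tendsto w atTop (𝓝 0) := by
  rcases anti_alt hw0 hw with h0 | ⟨c, hc, hcw⟩
  · exact h0
  exfalso
  have hWw : ∀ n : ℕ, n * c ≤ W w n := by
    intro n
    have : ∑ i ∈ range n, c ≤ W w n := sum_le_sum fun i _ => hcw i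
    simpa using this
  have hWu : ∀ n : ℕ, n * c / C ≤ W u n := by
    intro n
    rw [div_le_iff₀ hC]
    linarith [hWw n, h1 n]
  have hWu' : ∀ n : ℕ, W u n ≤ n * u 0 := by
    intro n
    have : W u n ≤ ∑ i ∈ range n, u 0 := sum_le_sum fun i _ => hu (Nat.zero_le i)
    simpa using this
  -- u converges to some l
  have hlim : ∃ l, Tendsto u atTop (𝓝 l) := by
    refine ⟨_, tendsto_atTop_ciInf hu ⟨0, ?_⟩⟩
    rintro _ ⟨i, rfl⟩
    exact (hu0 i).le
  obtain ⟨l, hl⟩ := hlim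
  have havg := W_avg hl
  have hlpos : 0 < l := by
    have : c / C ≤ l := by
      refine ge_of_tendsto havg ?_
      filter_upwards [eventually_gt_atTop 0] with n hn
      have hn' : (0:ℝ) < n := by exact_mod_cast hn
      rw [le_div_iff₀ hn']
      have := hWu n
      calc c / C * n = n * c / C := by ring
        _ ≤ W u n := this
    have : 0 < c / C := by positivity
    linarith
  obtain ⟨δ, hδ, N, hN⟩ := h (c / (2 * u 0)) (by have := hu0 0; positivity)
  have h2 : Tendsto (fun n : ℕ => W u (2 * n) / ((2 * n : ℕ) : ℝ)) atTop (𝓝 l) :=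
    havg.comp (tendsto_id.const_mul_atTop' (by norm_num : 0 < 2))
  have h3 : Tendsto (fun n : ℕ => 2 * (W u (2 * n) / ((2 * n : ℕ) : ℝ)) -
      (2 - δ) * (W u n / n)) atTop (𝓝 (2 * l - (2 - δ) * l)) :=
    (h2.const_mul 2).sub (havg.const_mul (2 - δ))
  have h4 : 0 < 2 * l - (2 - δ) * l := by
    have : 0 < δ * l := by positivity
    linarith
  obtain ⟨n, hn1, hn2, hn3⟩ := ((h3.eventually (lt_mem_nhds h4)).and
    ((eventually_ge_atTop N).and (eventually_gt_atTop 0))).exists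
  have hn' : (0:ℝ) < n := by exact_mod_cast hn3
  have h5 : (2 - δ) * W u n ≤ W u (2 * n) := by
    have e : 2 * (W u (2 * n) / ((2 * n : ℕ) : ℝ)) - (2 - δ) * (W u n / n)
        = (W u (2 * n) - (2 - δ) * W u n) / n := by
      push_cast
      field_simp
    rw [e] at hn1
    have := (div_pos_iff_of_pos_right hn').mp hn1
    linarith
  have h6 := hN n hn2 h5
  have h7 := hWw n
  have h8 := hWu' n
  have h9 := hu0 0
  have h10 : c / (2 * u 0) * W u n ≤ n * c / 2 := by
    calc c / (2 * u 0) * W u n ≤ c / (2 * u 0) * (n * u 0) :=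
          mul_le_mul_of_nonneg_left h8 (by positivity)
      _ = n * c / 2 := by field_simp
  have h11 : 0 < n * c := by positivity
  linarith

/-- **Sufficiency.** -/
theorem suff {a b : ℝ} (hab : a < b) {gam lam : ℕ → ℝ} (hg : LSeq gam) (hl : LSeq lam)
    (h1 : ∃ C : ℝ, ∀ n, W (rc lam) n ≤ C * W (rc gam) n)
    (h2 : ∀ ε > 0, ∃ δ > 0, ∃ N : ℕ, ∀ n ≥ N, (2 - δ) * W (rc gam) n ≤ W (rc gam) (2 * n) →
      W (rc lam) n ≤ ε * W (rc gam) n) {f : ℝ → ℝ} (hf : Var a b gam f < ⊤) :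
    Var a b lam f < ⊤ ∧ Tendsto (fun m => Var a b (fun i => lam (m + i)) f) atTop (𝓝 0) := by
  set u := rc gam with hu
  set w := rc lam with hw
  have hu0 : ∀ i, 0 < u i := rc_pos hg
  have hw0 : ∀ i, 0 < w i := rc_pos hl
  have hua : Antitone u := rc_anti hg
  have hwa : Antitone w := rc_anti hl
  have hu0' : ∀ i, 0 ≤ u i := fun i => (hu0 i).le
  have hw0' : ∀ i, 0 ≤ w i := fun i => (hw0 i).le
  obtain ⟨C0, hC0⟩ := h1
  set C := |C0| + 1 with hCdef
  have hC : 0 < C := by positivity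
  have hLG : ∀ n, W w n ≤ C * W u n := by
    intro n
    refine (hC0 n).trans (mul_le_mul_of_nonneg_right ?_ (W_nonneg hu0' n))
    rw [hCdef]; linarith [le_abs_self C0]
  have hwt := w_tendsto hu0 hua hw0' hwa hC hLG h2
  obtain ⟨K, hK0, hK⟩ := bound_of_lt hg hf
  have hV := int_bound hu0' hK
  have hcore := core hu0' hua hw0' hwa hK0 hV hC.le hLG
    (cond2 hu0 hua (rc_tendsto hg) hw0' hwa h2)
  -- single increments are bounded
  have hinc : ∀ n I, Fam a b n I → ∀ i < n, inc f (I i) ≤ K / u 0 := by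
    intro n I hI i hi
    have h3 : Fam a b 1 (fun _ => I i) := by
      refine ⟨fun _ _ => hI.1 i hi, fun j hj k hk hjk => ?_⟩
      omega
    have h4 := hK 1 _ h3
    simp only [range_one, sum_singleton] at h4
    rwa [le_div_iff₀ (hu0 0)]
  have hR0 : 0 ≤ K / u 0 := div_nonneg hK0 (hu0' 0)
  constructor
  · refine lt_of_le_of_lt (Var_le (K := C * K) ?_) ENNReal.ofReal_lt_top
    intro n I hI
    refine (sum_le_int (inc f) hw0' hwa (inc_nonneg f) n I (Fam_inj hI) (K / u 0) hR0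
      (hinc n I hI)).trans ?_
    have h3 : ∫ c in (0:ℝ)..(K / u 0), W w (cnt (inc f) ((range n).image I) c) ≤
        ∫ c in (0:ℝ)..(K / u 0), C * W u (cnt (inc f) ((range n).image I) c) :=
      intervalIntegral.integral_mono_on hR0 (ii _ _ _ _ _) ((ii _ _ _ _ _).const_mul C)
        (fun c _ => hLG _)
    rw [intervalIntegral.integral_const_mul] at h3
    exact h3.trans (mul_le_mul_of_nonneg_left (hV _ (Fam_FF hI) _ hR0) hC.le)
  · -- convergence
    rw [ENNReal.tendsto_nhds_zero]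
    intro ε hε
    -- pick a real number
    obtain ⟨r, hr0, hrε⟩ : ∃ r : ℝ, 0 < r ∧ ENNReal.ofReal r ≤ ε := by
      rcases eq_or_ne ε ⊤ with h | h
      · exact ⟨1, one_pos, by rw [h]; exact le_top⟩
      · exact ⟨ε.toReal, ENNReal.toReal_pos hε.ne' h, by rw [ENNReal.ofReal_toReal h]⟩
    obtain ⟨c0, hc0, hcF⟩ := hcore (r / 2) (by positivity)
    -- bound on the number of large increments
    obtain ⟨M, hM⟩ := eventually_atTop.mp
      ((rc_tendsto hg).eventually_gt_atTop (K / c0))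
    have hcount : ∀ F, FF a b F → ∀ c, c0 ≤ c → cnt (inc f) F c ≤ M := by
      intro F hF c hc
      refine (cnt_anti (inc f) F hc).trans ?_
      by_contra hlt
      push Not at hlt
      have h3 := hM _ hlt.le
      have h4 : c0 * W u (cnt (inc f) F c0) ≤ K := by
        refine le_trans ?_ (hV F hF c0 hc0.le)
        have h5 : ∫ x in (0:ℝ)..c0, W u (cnt (inc f) F c0) ≤
            ∫ x in (0:ℝ)..c0, W u (cnt (inc f) F x) := by
          apply intervalIntegral.integral_mono_on hc0.le (by simp) (ii _ _ _ _ _)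
          intro x hx
          exact W_mono hu0' (cnt_anti (inc f) F hx.2)
        simpa using h5
      rw [div_lt_iff₀ hc0] at h3
      linarith
    have hwm : Tendsto (fun m => (K / u 0 + c0) * (M * w m)) atTop (𝓝 0) := by
      have := (hwt.const_mul (M : ℝ)).const_mul (K / u 0 + c0)
      simpa using this
    filter_upwards [hwm.eventually (gt_mem_nhds (show (0:ℝ) < r / 2 by positivity))] with m hm
    refine le_trans (Var_le (K := r) ?_) hrε
    intro n I hI
    set F := (range n).image I with hF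
    have hFF := Fam_FF hI
    have e : rc (fun i => lam (m + i)) = fun i => w (m + i) := by
      funext i; rfl
    rw [e]
    set R := K / u 0 + c0 with hRdef
    have hR : 0 ≤ R := by positivity
    have hc0R : c0 ≤ R := by linarith
    have hw' : Antitone (fun i => w (m + i)) := fun i j hij => hwa (by omega)
    refine (sum_le_int (inc f) (fun i => hw0' (m + i)) hw' (inc_nonneg f) n I (Fam_inj hI)
      R hR (fun i hi => (hinc n I hI i hi).trans (by linarith))).trans ?_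
    rw [← intervalIntegral.integral_add_adjacent_intervals (b := c0) (ii _ _ _ _ _)
      (ii _ _ _ _ _)]
    have hA : ∫ c in (0:ℝ)..c0, W (fun i => w (m + i)) (cnt (inc f) F c) ≤ r / 2 := by
      refine le_trans ?_ (hcF F hFF)
      apply intervalIntegral.integral_mono_on hc0.le (ii _ _ _ _ _) (ii _ _ _ _ _)
      intro c _
      exact sum_le_sum fun i _ => hwa (by omega)
    have hB : ∫ c in c0..R, W (fun i => w (m + i)) (cnt (inc f) F c) ≤ r / 2 := by
      have h3 : ∫ c in c0..R, W (fun i => w (m + i)) (cnt (inc f) F c) ≤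
          ∫ c in c0..R, (M * w m : ℝ) := by
        apply intervalIntegral.integral_mono_on hc0R (ii _ _ _ _ _) (by simp)
        intro c hc
        have h4 : W (fun i => w (m + i)) (cnt (inc f) F c) ≤
            ∑ i ∈ range (cnt (inc f) F c), w m := sum_le_sum fun i _ => hwa (by omega)
        simp only [sum_const, card_range, nsmul_eq_mul] at h4
        refine h4.trans (mul_le_mul_of_nonneg_right ?_ (hw0' m))
        exact_mod_cast hcount F hFF c hc.1
      simp only [intervalIntegral.integral_const, smul_eq_mul] at h3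
      have h5 : (R - c0) * (M * w m) ≤ R * (M * w m) :=
        mul_le_mul_of_nonneg_right (by linarith) (mul_nonneg (Nat.cast_nonneg M) (hw0' m))
      linarith
    linarith

end Pool.Agent.R783.BV
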